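import Pool.Agent.Helper27.TG.Avg
import Pool.Agent.Helper27.TE.ExtLoc

/-!
# TG-9: arrows are local or come from the class group
-/

set_option autoImplicit false
set_option linter.unusedSectionVars false

open NumberField Pool.Agent.Helper16.TR

open scoped Pointwise

namespace Pool.Agent.Helper27.TG

section coc

variable {K Ω : Type} [Field K] [NumberField K] [Field Ω] [Algebra K Ω] {F : Type} [Field F]
  {n : ℕ} {D : (Ω ≃ₐ[K] Ω) →* Matrix (Fin n) (Fin n) F} {b : Fin n → ℕ} {a c : ℕ}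
  {κ : (Ω ≃ₐ[K] Ω) → Matrix (Fin n) (Fin n) F}

private lemma te_coc (h : Coc D b a c κ) : TE.Coc D b a c κ := by
  obtain ⟨h1, h2, h3, h4, g, hg, h5⟩ := h
  refine ⟨h1, h2, h3, h4, g, hg, ?_⟩
  have h6 := h5 0
  rwa [zero_smul] at h6

private lemma blk_comm (hoff : ∀ g x y, b x ≠ b y → D g x y = 0) (g : Ω ≃ₐ[K] Ω) :
    D g * blk b a = blk b a * D g := by
  ext x y
  unfold blk
  rw [Matrix.mul_diagonal, Matrix.diagonal_mul]
  by_cases hxy : b x = b y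
  · rw [hxy, mul_comm]
  · rw [hoff _ x y hxy, zero_mul, mul_zero]

private lemma blk_apply (x y : Fin n) (h : (blk b a : Matrix (Fin n) (Fin n) F) x y ≠ 0) :
    x = y ∧ b x = a := by
  unfold blk at h
  rw [Matrix.diagonal_apply] at h
  by_cases h1 : x = y
  · refine ⟨h1, ?_⟩
    by_contra h2
    rw [if_pos h1, if_neg h2] at h
    exact h rfl
  · rw [if_neg h1] at h
    exact absurd rfl h

private lemma exists_normal (hoff : ∀ g x y, b x ≠ b y → D g x y = 0)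
    (hindex : ((D.ker.index : ℕ) : F) ≠ 0) (hκ : Coc D b a c κ) :
    ∃ κ' : (Ω ≃ₐ[K] Ω) → Matrix (Fin n) (Fin n) F, Coc D b a c κ' ∧
      (∀ g, κ g = 0 → κ' g = 0) ∧
      ∀ g, D g = 1 → κ' g ≠ 0 → ∀ s : F, κ' g ≠ s • blk b a := by
  obtain ⟨h1, h2, h3, ⟨U, hU, hU2⟩, g0, hg0, h5⟩ := hκ
  by_cases hac : a = c
  · subst hac
    have hx0 : ∃ x0, b x0 = a := by
      by_contra hno
      push Not at hno
      refine h5 0 ?_
      rw [zero_smul]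
      ext x y
      by_contra h6
      exact hno y (h1 g0 hg0 x y h6).1
    obtain ⟨x0, hx0⟩ := hx0
    obtain ⟨f, hf1, hf2⟩ := exists_functional D b D.ker (fun g hg => hg) hindex hoff x0
    rw [hx0] at hf1
    refine ⟨fun g => κ g - f (κ g) • blk b a, ⟨?_, ?_, ?_, ⟨U, hU, ?_⟩, g0, hg0, ?_⟩, ?_, ?_⟩
    · intro g hg x y hxy
      by_cases h6 : κ g x y = 0
      · have h7 : (blk b a : Matrix (Fin n) (Fin n) F) x y ≠ 0 := by
          intro h8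
          apply hxy
          change (κ g - f (κ g) • blk b a : Matrix (Fin n) (Fin n) F) x y = 0
          rw [Matrix.sub_apply, Matrix.smul_apply, h6, h8, smul_zero, sub_zero]
        obtain ⟨h8, h9⟩ := blk_apply x y h7
        exact ⟨h8 ▸ h9, h9⟩
      · exact h1 g hg x y h6
    · intro g h hg hh
      dsimp only
      rw [h2 g h hg hh, map_add, add_smul]
      abel
    · intro g h hg
      dsimp only
      rw [h3 g h hg, hf2, mul_sub, sub_mul, mul_smul_comm, smul_mul_assoc, blk_comm hoff,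
        mul_assoc (blk b a), ← map_mul, mul_inv_cancel, map_one, mul_one]
    · intro g hg hDg
      dsimp only
      rw [hU2 g hg hDg, map_zero, zero_smul, sub_zero]
    · intro s hs
      refine h5 (s + f (κ g0)) ?_
      rw [add_smul]
      exact sub_eq_iff_eq_add.1 hs
    · intro g hg
      dsimp only
      rw [hg, map_zero, zero_smul, sub_zero]
    · intro g hg hne s hs
      dsimp only at hs hne
      have h6 := congrArg f hs
      rw [map_sub, map_smul, map_smul, hf1, smul_eq_mul, smul_eq_mul, mul_one, mul_one,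
        sub_self] at h6
      rw [hs, ← h6, zero_smul] at hne
      exact hne rfl
  · refine ⟨κ, ⟨h1, h2, h3, ⟨U, hU, hU2⟩, g0, hg0, h5⟩, fun g hg => hg, ?_⟩
    intro g hg hne s hs
    apply hne
    ext x y
    by_contra h6
    have h7 := h1 g hg x y h6
    rw [hs, Matrix.smul_apply] at h6
    obtain ⟨h8, h9⟩ := blk_apply x y (right_ne_zero_of_smul h6)
    apply hac
    rw [← h9, ← h7.2]

end coc

variable {K Ω : Type} [Field K] [NumberField K] [Field Ω] [Algebra K Ω] [IsGalois K Ω]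

private theorem frob_comm {S : Set (Ideal (𝓞 K))} {F : Type} [Field F] {n : ℕ} (p : ℕ)
    [Fact p.Prime] [CharP F p] (D : (Ω ≃ₐ[K] Ω) →* Matrix (Fin n) (Fin n) F) (b : Fin n → ℕ)
    {H : Type} [Group H] {ρ : (Ω ≃ₐ[K] Ω) →* H} (hT : TameIn K Ω S ρ) (hker : ρ.ker ≤ D.ker)
    (hopen : IsOpen (D.ker : Set (Ω ≃ₐ[K] Ω))) {a c : ℕ}
    {κ : (Ω ≃ₐ[K] Ω) → Matrix (Fin n) (Fin n) F} (hκ : TE.Coc D b a c κ)
    (Q : Ideal (𝓞 Ω)) (hQ : Q.IsMaximal) (hp : (p : 𝓞 Ω) ∉ Q) {τ : Ω ≃ₐ[K] Ω}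
    (hτ : τ ∈ Q.inertia (Ω ≃ₐ[K] Ω)) (hDτ : D τ = 1) (g : Ω ≃ₐ[K] Ω) (N : ℕ)
    (hg : ∀ x : 𝓞 Ω, g • x - x ^ N ∈ Q) : D g * κ τ = N • (κ τ * D g) := by
  have hUn : (TE.elKer hκ).Normal := TE.elKer_normal hκ
  obtain ⟨E, nE, gE, hE, -⟩ := Helper68.RR.exists_field (TE.elKer hκ) (TE.elKer_open hκ hopen)
  have hmem : ∀ γ : Ω ≃ₐ[K] Ω, γ ∈ TE.elKer hκ ↔ AlgEquiv.restrictNormalHom E γ = 1 := by
    intro γ
    rw [← hE, ← IntermediateField.restrictNormalHom_ker, MonoidHom.mem_ker]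
  have hPE : (Q.comap (algebraMap (𝓞 E) (𝓞 Ω))).IsMaximal :=
    Ideal.isMaximal_comap_of_isIntegral_of_isMaximal Q
  set PE := Q.comap (algebraMap (𝓞 E) (𝓞 Ω)) with hPEdef
  have hI : (Nat.card (PE.inertia (E ≃ₐ[K] E)) : 𝓞 E) ∉ PE := by
    intro hbad
    obtain ⟨l, hl, hdvd, hlP⟩ := TE.el_exists_prime PE (Nat.card_pos.ne') hbad
    have : Fact l.Prime := ⟨hl⟩
    obtain ⟨σ, hσ⟩ := exists_prime_orderOf_dvd_card' l hdvd
    obtain ⟨γ, hγ, hγσ⟩ := Helper68.RR.lift_inertia E Q σ.1 σ.2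
    have hlQ : (l : 𝓞 Ω) ∈ Q := by
      have h1 : algebraMap (𝓞 E) (𝓞 Ω) (l : 𝓞 E) ∈ Q := hlP
      rwa [map_natCast] at h1
    have hpow : γ ^ l ∈ TE.elKer hκ := by
      rw [hmem, map_pow, hγσ]
      have h1 : σ ^ l = 1 := by rw [← hσ]; exact pow_orderOf_eq_one σ
      exact congrArg Subtype.val h1
    have hγD : γ ∈ D.ker := by
      refine Helper68.RR.tame_mod hT Q D.ker hopen hker hγ (k := 1) hl hlQ ?_
      rw [pow_one]
      exact hpow.1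
    have hγD' : D γ = 1 := hγD
    have h2 := hpow.2
    rw [(TE.el_coc_pow hκ hγD' l).2] at h2
    have hlp : l ≠ p := by
      rintro rfl
      exact hp hlQ
    have hlF : (l : F) ≠ 0 := by
      intro h3
      have h4 := (CharP.cast_eq_zero_iff F p l).1 h3
      exact hlp ((Nat.prime_dvd_prime_iff_eq (Fact.out : p.Prime) hl).1 h4).symm
    have h3 : κ γ = 0 := by
      rw [← Nat.cast_smul_eq_nsmul F] at h2
      exact (smul_eq_zero.1 h2).resolve_left hlF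
    have h4 : AlgEquiv.restrictNormalHom E γ = 1 := (hmem γ).1 ⟨hγD', h3⟩
    have h5 : σ = 1 := Subtype.ext (hγσ.symm.trans h4)
    rw [h5, orderOf_one] at hσ
    exact hl.one_lt.ne hσ
  have hφ : ∀ x : 𝓞 E, AlgEquiv.restrictNormalHom E g • x - x ^ N ∈ PE := by
    intro x
    change algebraMap (𝓞 E) (𝓞 Ω) (AlgEquiv.restrictNormalHom E g • x - x ^ N) ∈ Q
    rw [map_sub, Helper68.RR.algebraMap_smul, map_pow]
    exact hg _
  have hconj := Helper68.RR.conj_eq_pow hI (TE.el_smul_eq_of_pow hφ) hφ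
    (Helper68.RR.res_mem_inertia E Q hτ)
  have hin : g * τ * g⁻¹ * (τ ^ N)⁻¹ ∈ TE.elKer hκ := by
    rw [hmem, map_mul, map_mul, map_mul, map_inv, map_inv, map_pow, hconj, mul_inv_cancel]
  have h6 := hin.2
  obtain ⟨h7, h8⟩ := TE.el_coc_pow hκ hDτ N
  rw [hκ.2.1 _ _ (TE.el_dconj hDτ) (TE.el_dinv h7), TE.el_coc_inv hκ h7, h8, hκ.2.2.1 _ _ hDτ,
    ← sub_eq_add_neg, sub_eq_zero] at h6
  have h9 : D g⁻¹ * D g = 1 := by rw [← map_mul, inv_mul_cancel, map_one]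
  calc D g * κ τ = D g * κ τ * (D g⁻¹ * D g) := by rw [h9, mul_one]
    _ = (D g * κ τ * D g⁻¹) * D g := by simp only [mul_assoc]
    _ = N • (κ τ * D g) := by rw [h6, smul_mul_assoc]

theorem loc_or_cls {S : Set (Ideal (𝓞 K))} {F : Type} [Field F] {n : ℕ} (p : ℕ) [Fact p.Prime]
    [CharP F p] (D : (Ω ≃ₐ[K] Ω) →* Matrix (Fin n) (Fin n) F) (b : Fin n → ℕ)
    (hoff : ∀ g x y, b x ≠ b y → D g x y = 0) (hindex : ¬ p ∣ D.ker.index)
    {H : Type} [Group H] {ρ : (Ω ≃ₐ[K] Ω) →* H} (hT : TameIn K Ω S ρ) (hker : ρ.ker ≤ D.ker)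
    (hopen : IsOpen (D.ker : Set (Ω ≃ₐ[K] Ω))) {a c : ℕ} (h : ExtEdge S p D b a c) :
    LocEdge S p D b a c ∨ ClsEdge D b a c := by
  obtain ⟨κ₀, hκ₀, hκ₀2⟩ := h
  have hindex' : ((D.ker.index : ℕ) : F) ≠ 0 := fun h0 =>
    hindex ((CharP.cast_eq_zero_iff F p _).1 h0)
  obtain ⟨κ, hκ, hz, hns⟩ := exists_normal hoff hindex' hκ₀
  have hκ2 : ∀ Q : Ideal (𝓞 Ω), Q.IsMaximal →
      (Q.comap (algebraMap (𝓞 K) (𝓞 Ω)) ∉ S ∨ (p : 𝓞 Ω) ∈ Q) →
      ∀ g ∈ Q.inertia (Ω ≃ₐ[K] Ω), D g = 1 → κ g = 0 := fun Q hQ h1 g hg hDg =>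
    hz g (hκ₀2 Q hQ h1 g hg hDg)
  by_cases hcls : ∀ Q : Ideal (𝓞 Ω), Q.IsMaximal →
    ∀ g ∈ Q.inertia (Ω ≃ₐ[K] Ω), D g = 1 → κ g = 0
  · exact Or.inr ⟨κ, hκ, hcls⟩
  left
  push Not at hcls
  obtain ⟨Q, hQ, τ, hτ, hDτ, hκτ⟩ := hcls
  have hS : Q.comap (algebraMap (𝓞 K) (𝓞 Ω)) ∈ S := by
    by_contra hS
    exact hκτ (hκ2 Q hQ (Or.inl hS) τ hτ hDτ)
  have hp : (p : 𝓞 Ω) ∉ Q := by
    intro hp
    exact hκτ (hκ2 Q hQ (Or.inr hp) τ hτ hDτ)
  exact ⟨Q, hQ, hS, hp, κ τ, hns τ hDτ hκτ, fun x y hxy => hκ.1 τ hDτ x y hxy,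
    fun g N hg => frob_comm p D b hT hker hopen (te_coc hκ) Q hQ hp hτ hDτ g N hg⟩

end Pool.Agent.Helper27.TG
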