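import Pool.Agent.Helper27.TG.Defs
import Pool.Agent.Helper68.RR.Trans

/-!
# TG-10: edges at finite level give extensions
-/

set_option autoImplicit false

open NumberField Pool.Agent.Helper16.TR

namespace Pool.Agent.Helper27.TG

variable {K Ω : Type} [Field K] [NumberField K] [Field Ω] [Algebra K Ω] [IsGalois K Ω]

theorem extEdge_of_kEdge {S : Set (Ideal (𝓞 K))} {H : Type} [Group H] {ρ : (Ω ≃ₐ[K] Ω) →* H}
    (hT : TameIn K Ω S ρ) {F R : Type} [Field F] [CommRing R] {n : ℕ} (p : ℕ) [Fact p.Prime]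
    (ρ' : (Ω ≃ₐ[K] Ω) →* Matrix (Fin n) (Fin n) R) (hker : ρ.ker ≤ ρ'.ker)
    (hopen : IsOpen (ρ'.ker : Set (Ω ≃ₐ[K] Ω)))
    (D : (Ω ≃ₐ[K] Ω) →* Matrix (Fin n) (Fin n) F) (b : Fin n → ℕ)
    (hp : ∀ g ∈ D.ker, ∃ k : ℕ, ρ' g ^ p ^ k = 1) {a c : ℕ}
    (h : KEdge ρ' D b D.ker a c) : ExtEdge S p D b a c := by
  obtain ⟨κ, h1, h2, h3, h4, g0, hg0, hg0'⟩ := h
  refine ⟨κ, ⟨fun g hg x y hxy => h1 g (MonoidHom.mem_ker.2 hg) x y hxy,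
    fun g h hg hh => h2 g (MonoidHom.mem_ker.2 hg) h (MonoidHom.mem_ker.2 hh),
    fun g h hg => h3 h g (MonoidHom.mem_ker.2 hg),
    ⟨ρ'.ker, hopen, fun g hg hD => h4 g (MonoidHom.mem_ker.2 hD) (MonoidHom.mem_ker.1 hg)⟩,
    ⟨g0, MonoidHom.mem_ker.1 hg0, hg0'⟩⟩, ?_⟩
  intro Q hQ hor g hg hD
  have hDk : g ∈ D.ker := MonoidHom.mem_ker.2 hD
  apply h4 g hDk
  rw [← MonoidHom.mem_ker]
  rcases hor with hS | hpQ
  · exact Pool.Agent.Helper68.RR.unram_mod hT Q ρ'.ker hopen hker hS hg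
  · obtain ⟨k, hk⟩ := hp g hDk
    refine Pool.Agent.Helper68.RR.tame_mod hT Q ρ'.ker hopen hker hg (Fact.out : p.Prime) hpQ
      (k := k) ?_
    rw [MonoidHom.mem_ker, map_pow]
    exact hk

end Pool.Agent.Helper27.TG
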