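import Pool.Agent.Helper27.TG.Alg
import Pool.Agent.Helper27.TG.ExtLoc
import Pool.Agent.Helper27.TG.KtoExt
import Pool.Agent.Helper27.TE.Final

/-!
# TG-11: the main theorem
-/

set_option autoImplicit false
set_option linter.unusedSectionVars false

open NumberField IsLocalRing Matrix Pool.Agent.Helper16.TR Pool.Agent.Helper27.TE

namespace Pool.Agent.Helper27.TG

/-- if all products of `m` elements vanish then the augmentation filtration is trivial -/
lemma J_eq_bot_of_prod {Γ R : Type} [Group Γ] [CommRing R] {n : ℕ}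
    (ρ : Γ →* Matrix (Fin n) (Fin n) R) (P : Subgroup Γ) (m : ℕ)
    (h : ∀ l : List Γ, (∀ g ∈ l, g ∈ P) → l.length = m → (l.map fun g => ρ g - 1).prod = 0) :
    J ρ P m = ⊥ := by
  have key : ∀ j, ∀ w ∈ J ρ P j, ∀ l : List Γ, (∀ g ∈ l, g ∈ P) → l.length + j = m →
      (l.map fun g => ρ g - 1).prod *ᵥ w = 0 := by
    intro j
    induction j with
    | zero =>
      intro w _ l hl hlen
      rw [h l hl (by omega), Matrix.zero_mulVec]
    | succ j ih =>
      intro w hw
      refine Submodule.span_induction (p := fun w _ => ∀ l : List Γ, (∀ g ∈ l, g ∈ P) →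
        l.length + (j + 1) = m → (l.map fun g => ρ g - 1).prod *ᵥ w = 0) ?_ ?_ ?_ ?_ hw
      · rintro _ ⟨g, hg, v, hv, rfl⟩ l hl hlen
        have h1 := ih v hv (l ++ [g]) (by
          intro x hx
          rcases List.mem_append.1 hx with h2 | h2
          · exact hl x h2
          · rw [List.mem_singleton.1 h2]
            exact hg) (by
          rw [List.length_append, List.length_singleton]
          omega)
        rw [List.map_append, List.prod_append, List.map_singleton, List.prod_singleton,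
          ← Matrix.mulVec_mulVec, Matrix.sub_mulVec, Matrix.one_mulVec] at h1
        exact h1
      · intro l _ _
        rw [Matrix.mulVec_zero]
      · intro x y _ _ hx hy l hl hlen
        rw [Matrix.mulVec_add, hx l hl hlen, hy l hl hlen, add_zero]
      · intro r x _ hx l hl hlen
        rw [Matrix.mulVec_smul, hx l hl hlen, smul_zero]
  rw [eq_bot_iff]
  intro w hw
  have h1 := key m w hw [] (by simp) (by simp)
  rw [List.map_nil, List.prod_nil, Matrix.one_mulVec] at h1
  rw [Submodule.mem_bot]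
  exact h1

section main

variable {K Ω : Type} [Field K] [NumberField K] [Field Ω] [Algebra K Ω] [IsGalois K Ω]
  {S : Set (Ideal (𝓞 K))} {A : Type} [CommRing A]
  [IsLocalRing A] [IsNoetherianRing A] [TopologicalSpace A] (hA : IsAdic (maximalIdeal A))
  [Finite (ResidueField A)] (p : ℕ) [Fact p.Prime] [CharP (ResidueField A) p]
  {n : ℕ} (ρ : (Ω ≃ₐ[K] Ω) →* Matrix.GeneralLinearGroup (Fin n) A) (hρ : Continuous ρ)
  (hT : TameIn K Ω S ρ) (b : Fin n → ℕ)
  (D : (Ω ≃ₐ[K] Ω) →* Matrix (Fin n) (Fin n) (ResidueField A))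
  (htri : ∀ g x y, b y < b x → residue A (ρ g x y) = 0)
  (hD : ∀ g x y, D g x y = if b x = b y then residue A (ρ g x y) else 0)

include hA hρ hT htri hD in
/-- the algebraic theorem at finite level -/
theorem level (hindex : ¬ p ∣ D.ker.index)
    (hno : ¬ ∃ c : ℕ → ℕ, ∀ m, ExtEdge S p D b (c m) (c (m + 1))) {k : ℕ} (hk : k ≠ 0) :
    (∃ P₁ : Subgroup (Ω ≃ₐ[K] Ω), P₁.Normal ∧ P₁ ≤ D.ker ∧ ⁅D.ker, D.ker⁆ ≤ P₁ ∧
      (red ρ k).ker ≤ P₁ ∧ ∀ l : List (Ω ≃ₐ[K] Ω), (∀ g ∈ l, g ∈ P₁) → l.length = n →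
        (l.map fun g => red ρ k g - 1).prod = 0) ∧
      ∀ g ∈ D.ker, ∃ j : ℕ, red ρ k g ^ p ^ j = 1 := by
  have hopen : ∀ k, IsOpen ((red ρ k).ker : Set (Ω ≃ₐ[K] Ω)) := isOpen_ker_red hA hρ
  have hlt : maximalIdeal A ^ k ≤ maximalIdeal A := Ideal.pow_le_self hk
  have hntr : Nontrivial (A ⧸ maximalIdeal A ^ k) := by
    rw [Ideal.Quotient.nontrivial_iff]
    intro h1
    rw [h1, top_le_iff] at hlt
    exact (maximalIdeal.isMaximal A).ne_top hlt
  have hloc : IsLocalRing (A ⧸ maximalIdeal A ^ k) :=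
    IsLocalRing.of_surjective' (Ideal.Quotient.mk _) Ideal.Quotient.mk_surjective
  have hfinR : Finite (A ⧸ maximalIdeal A ^ k) := by
    have : Finite (A ⧸ maximalIdeal A) := inferInstanceAs (Finite (ResidueField A))
    exact Ideal.finite_quotient_pow (IsNoetherian.noetherian _) k
  let res : (A ⧸ maximalIdeal A ^ k) →+* ResidueField A :=
    Ideal.Quotient.lift (maximalIdeal A ^ k) (residue A) (fun a ha => by
      rw [residue_eq_zero_iff]; exact hlt ha)
  have hres' : ∀ a, res (Ideal.Quotient.mk _ a) = residue A a := fun a => rfl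
  have hBD : BlockData res (red ρ k) D b D.ker :=
    { surj := by
        intro z
        obtain ⟨a, rfl⟩ := residue_surjective z
        exact ⟨Ideal.Quotient.mk _ a, rfl⟩
      tri := by
        intro g x y h
        rw [red_apply, hres']
        exact htri g x y h
      diag := by
        intro g x y h
        rw [red_apply, hres', hD, if_pos h]
      off := by
        intro g x y h
        rw [hD, if_neg h]
      triv := fun g hg => (MonoidHom.mem_ker).1 hg
      index := by
        rw [Ne, CharP.cast_eq_zero_iff (ResidueField A) p]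
        exact hindex }
  have hp : ∀ g ∈ D.ker, ∃ j : ℕ, red ρ k g ^ p ^ j = 1 := fun g hg =>
    exists_pow_eq_one hBD p hg
  refine ⟨alg hBD ((ker_red_anti ρ (Nat.one_le_iff_ne_zero.2 hk)).trans (ker_red_one_le ρ b D hD))
    p (ExtEdge S p D b) (fun a c h => extEdge_of_kEdge hT p (red ρ k)
    (ker_le_ker_red ρ k) (hopen k) D b hp h) hno, hp⟩

include hA hρ hT htri hD in
/-- the commutator subgroup of the kernel of `D` acts unipotently -/
theorem prod_eq_zero' (hindex : ¬ p ∣ D.ker.index)
    (hno : ¬ ∃ c : ℕ → ℕ, ∀ m, ExtEdge S p D b (c m) (c (m + 1)))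
    (l : List (Ω ≃ₐ[K] Ω)) (hl : ∀ g ∈ l, g ∈ ⁅D.ker, D.ker⁆) (hn : l.length = n) :
    (l.map fun g => ((ρ g : Matrix (Fin n) (Fin n) A) - 1)).prod = 0 := by
  ext x y
  have h1 : (l.map fun g => ((ρ g : Matrix (Fin n) (Fin n) A) - 1)).prod x y ∈
      (⨅ k : ℕ, maximalIdeal A ^ k : Ideal A) := by
    rw [Ideal.mem_iInf]
    intro k
    rcases eq_or_ne k 0 with rfl | hk
    · rw [pow_zero, Ideal.one_eq_top]
      exact Submodule.mem_top
    obtain ⟨⟨P₁, -, -, h5, -, h6⟩, -⟩ := level hA p ρ hρ hT b D htri hD hindex hno hk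
    have h2 := h6 l (fun g hg => h5 (hl g hg)) hn
    have h3 : (l.map fun g => red ρ k g - 1).prod = (Ideal.Quotient.mk (maximalIdeal A ^ k)).mapMatrix
        ((l.map fun g => ((ρ g : Matrix (Fin n) (Fin n) A) - 1)).prod) := by
      rw [map_list_prod, List.map_map]
      congr 1
      apply List.map_congr_left
      intro g _
      rw [Function.comp_apply, map_sub, map_one]
      rfl
    rw [h3] at h2
    have h4 := congrFun (congrFun h2 x) y
    rw [← Ideal.Quotient.eq_zero_iff_mem]
    exact h4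
  rw [Ideal.iInf_pow_eq_bot_of_isLocalRing _ (Ideal.IsPrime.ne_top inferInstance)] at h1
  exact h1

end main

/-- a normal open subgroup containing the kernel, of bounded index, contains the subgroup fixing the
compositum -/
lemma fixing_le {K : Type} [Field K] [NumberField K] {S : Set (Ideal (𝓞 K))} {B : ℕ}
    {E : IntermediateField K (AlgebraicClosure K)}
    (hE' : ∀ M : IntermediateField K (AlgebraicClosure K), FiniteDimensional K M →
      IsGalois K M → Module.finrank K M ≤ B → Helper21.FL.TameExt K S M → M ≤ E)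
    {H : Type} [Group H] {ρ : (AlgebraicClosure K ≃ₐ[K] AlgebraicClosure K) →* H}
    (hT : TameIn K (AlgebraicClosure K) S ρ)
    (N : Subgroup (AlgebraicClosure K ≃ₐ[K] AlgebraicClosure K)) (hN : N.Normal)
    (ho : IsOpen (N : Set (AlgebraicClosure K ≃ₐ[K] AlgebraicClosure K))) (hker : ρ.ker ≤ N)
    (hB : N.index ≤ B) : E.fixingSubgroup ≤ N := by
  obtain ⟨M, nM, gM, hM, hM'⟩ := Helper68.RR.exists_field N ho
  have hfd : FiniteDimensional K M := inferInstance
  have hle : M ≤ E := by
    refine hE' M hfd gM ?_ ?_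
    · rw [IntermediateField.finrank_eq_fixingSubgroup_index, hM]
      exact hB
    · refine hT M M.val ?_
      rw [IntermediateField.fieldRange_val, hM']
      exact IntermediateField.fixedField_antitone hker
  rw [← hM]
  exact IntermediateField.fixingSubgroup_antitone hle

/-- **Uniform finiteness**: all representations, over all coefficient rings, for which the kernel of
the block diagonal part contains a given open subgroup factor through one finite quotient -/
theorem exists_open (K : Type) [Field K] [NumberField K] (S : Set (Ideal (𝓞 K))) (hS : S.Finite)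
    (p : ℕ) [Fact p.Prime]
    (hW : ∀ (L : Type) [Field L] [NumberField L], ∃ W, Helper45.FM.ClassBound L p W)
    (P : Subgroup (AlgebraicClosure K ≃ₐ[K] AlgebraicClosure K)) [P.Normal]
    (hP : IsOpen (P : Set (AlgebraicClosure K ≃ₐ[K] AlgebraicClosure K))) (n : ℕ) :
    ∃ N : Subgroup (AlgebraicClosure K ≃ₐ[K] AlgebraicClosure K),
      IsOpen (N : Set (AlgebraicClosure K ≃ₐ[K] AlgebraicClosure K)) ∧
      ∀ (A : Type) [CommRing A] [IsLocalRing A] [IsNoetherianRing A] [TopologicalSpace A]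
        [Finite (ResidueField A)] [CharP (ResidueField A) p]
        (ρ : (AlgebraicClosure K ≃ₐ[K] AlgebraicClosure K) →* Matrix.GeneralLinearGroup (Fin n) A)
        (b : Fin n → ℕ) (D : (AlgebraicClosure K ≃ₐ[K] AlgebraicClosure K) →*
          Matrix (Fin n) (Fin n) (ResidueField A)),
        IsAdic (maximalIdeal A) → Continuous ρ → TameIn K (AlgebraicClosure K) S ρ →
        (∀ g x y, b y < b x → residue A (ρ g x y) = 0) →
        (∀ g x y, D g x y = if b x = b y then residue A (ρ g x y) else 0) →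
        ¬ p ∣ D.ker.index → P ≤ D.ker →
        (¬ ∃ c : ℕ → ℕ, ∀ m, ExtEdge S p D b (c m) (c (m + 1))) → N ≤ ρ.ker := by
  obtain ⟨B₀, hB₀⟩ := index_bound_above K S hS p hW P hP 1
  obtain ⟨E₀, hE₀, hE₀'⟩ := exists_compositum K S hS B₀
  set P₀ := Subgroup.normalClosure
    (E₀.fixingSubgroup : Set (AlgebraicClosure K ≃ₐ[K] AlgebraicClosure K)) with hP₀
  have hP₀o : IsOpen (P₀ : Set (AlgebraicClosure K ≃ₐ[K] AlgebraicClosure K)) :=
    Subgroup.isOpen_mono Subgroup.le_normalClosure (IntermediateField.fixingSubgroup_isOpen E₀)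
  obtain ⟨B, hB⟩ := index_bound_above K S hS p hW P₀ hP₀o n
  obtain ⟨E, hE, hE'⟩ := exists_compositum K S hS B
  refine ⟨E.fixingSubgroup, IntermediateField.fixingSubgroup_isOpen E, ?_⟩
  intro A _ _ _ _ _ _ ρ b D hA hρ hT htri hD hindex hPD hno g hg
  have hopen := isOpen_ker_red hA hρ
  apply mem_ker_of_red
  intro k
  rcases eq_or_ne k 0 with rfl | hk
  · rw [mem_ker_red]
    intro x y
    rw [pow_zero, Ideal.one_eq_top]
    exact Submodule.mem_top
  obtain ⟨⟨P₁, h1, h2, h3, h4, h5⟩, hp⟩ := level hA p ρ hρ hT b D htri hD hindex hno hk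
  have hpow : ∀ g ∈ D.ker, ∃ j : ℕ, g ^ p ^ j ∈ (red ρ k).ker := by
    intro g hg
    obtain ⟨j, hj⟩ := hp g hg
    exact ⟨j, by rw [MonoidHom.mem_ker, map_pow, hj]⟩
  have ho1 : IsOpen (P₁ : Set (AlgebraicClosure K ≃ₐ[K] AlgebraicClosure K)) :=
    Subgroup.isOpen_mono h4 (hopen k)
  have hi1 : P₁.index ≤ B₀ := by
    refine hB₀ D.ker hPD inferInstance _ ρ hT P₁ h1 ho1 ((ker_le_ker_red ρ k).trans h4) h2 ?_ ?_
    · intro g hg
      obtain ⟨j, hj⟩ := hpow g hg
      exact ⟨j, h4 hj⟩
    · rw [Subgroup.lowerCentralSeries_succ, Subgroup.lowerCentralSeries_zero]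
      exact h3
  have hle : P₀ ≤ P₁ := Subgroup.normalClosure_le_normal
    (fixing_le hE₀' hT P₁ h1 ho1 ((ker_le_ker_red ρ k).trans h4) hi1)
  have hi2 : (red ρ k).ker.index ≤ B := by
    refine hB P₁ hle h1 _ ρ hT (red ρ k).ker inferInstance (hopen k) (ker_le_ker_red ρ k) h4 ?_ ?_
    · exact fun g hg => hpow g (h2 hg)
    · intro g hg
      rw [MonoidHom.mem_ker]
      exact map_one_of_J_eq_bot _ _ (J_eq_bot_of_prod _ _ _ h5) hg
  exact fixing_le hE' hT (red ρ k).ker inferInstance (hopen k) (ker_le_ker_red ρ k) hi2 hg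

end Pool.Agent.Helper27.TG
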