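import Pool.Agent.Helper27.TG.Defs

/-!
# TG-2: block diagonalization of a complement
-/

set_option autoImplicit false

open Matrix

namespace Pool.Agent.Helper27.TG

section aux

/-- The sum of a function, constant on the left cosets of `N`, over these cosets is invariant under
left translations. -/
private lemma sum_out_smul {G V : Type} [Group G] [AddCommMonoid V] (N : Subgroup G)
    [Fintype (G ⧸ N)] (c : G → V) (hc : ∀ g, ∀ k ∈ N, c (g * k) = c g) (h : G) :
    ∑ q : G ⧸ N, c (h * q.out) = ∑ q : G ⧸ N, c q.out := by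
  rw [← Equiv.sum_comp (MulAction.toPerm h) (fun q : G ⧸ N => c q.out)]
  refine Finset.sum_congr rfl fun q _ => ?_
  have h1 : (h * q.out)⁻¹ * (h • q : G ⧸ N).out ∈ N := by
    rw [← QuotientGroup.eq, QuotientGroup.out_eq']
    conv_rhs => rw [← QuotientGroup.out_eq' q]
    rfl
  have h2 : (h • q : G ⧸ N).out = (h * q.out) * ((h * q.out)⁻¹ * (h • q : G ⧸ N).out) := by group
  show c (h * q.out) = c ((h • q : G ⧸ N).out)
  rw [h2, hc _ _ h1]

/-- The block diagonal part. -/
private def dg {F : Type} [Field F] {n : ℕ} (b : Fin n → ℕ) (M : Matrix (Fin n) (Fin n) F) :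
    Matrix (Fin n) (Fin n) F :=
  Matrix.of fun x y => if b x = b y then M x y else 0

private lemma dg_mul {F : Type} [Field F] {n : ℕ} (b : Fin n → ℕ)
    {M N : Matrix (Fin n) (Fin n) F} (hM : BlockTriangular M b) (hN : BlockTriangular N b) :
    dg b (M * N) = dg b M * dg b N := by
  ext x y
  simp only [dg, of_apply, mul_apply]
  by_cases h : b x = b y
  · rw [if_pos h]
    refine Finset.sum_congr rfl fun z _ => ?_
    by_cases h1 : b x = b z
    · rw [if_pos h1, if_pos (h1.symm.trans h)]
    · rw [if_neg h1, zero_mul]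
      rcases lt_or_gt_of_ne h1 with h2 | h2
      · rw [hN (i := z) (j := y) (by omega), mul_zero]
      · rw [hM (i := x) (j := z) h2, zero_mul]
  · rw [if_neg h]
    symm
    refine Finset.sum_eq_zero fun z _ => ?_
    by_cases h1 : b x = b z
    · rw [if_neg (fun h2 => h (h1.trans h2)), mul_zero]
    · rw [if_neg h1, zero_mul]

private lemma dg_one {F : Type} [Field F] {n : ℕ} (b : Fin n → ℕ) :
    dg b (1 : Matrix (Fin n) (Fin n) F) = 1 := by
  ext x y
  simp only [dg, of_apply]
  by_cases h : b x = b y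
  · rw [if_pos h]
  · rw [if_neg h, one_apply_ne (fun h1 => h (by rw [h1]))]

private lemma pow_entry_mem {R : Type} [CommRing R] {n : ℕ} (I : Ideal R)
    (M : Matrix (Fin n) (Fin n) R) (hM : ∀ x y, M x y ∈ I) (k : ℕ) :
    ∀ x y, (M ^ k) x y ∈ I ^ k := by
  induction k with
  | zero => intro x y; simp
  | succ k ih =>
    intro x y
    rw [pow_succ I, pow_succ M, mul_apply]
    exact Ideal.sum_mem _ fun z _ => Ideal.mul_mem_mul (ih x z) (hM z y)

end aux

variable {Γ : Type} [Group Γ] {R F : Type} [CommRing R] [IsLocalRing R] [Finite R] [Field F]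
  {n : ℕ} {res : R →+* F} {ρ : Γ →* Matrix (Fin n) (Fin n) R}
  {D : Γ →* Matrix (Fin n) (Fin n) F} {b : Fin n → ℕ} {P : Subgroup Γ}

omit [IsLocalRing R] [Finite R] in
private lemma tri' (hB : BlockData res ρ D b P) (g : Γ) :
    BlockTriangular ((ρ g).map res) b := by
  intro x y h
  exact hB.tri g x y h

omit [IsLocalRing R] [Finite R] in
private lemma dg_rho (hB : BlockData res ρ D b P) (g : Γ) : dg b ((ρ g).map res) = D g := by
  ext x y
  simp only [dg, of_apply, map_apply]
  by_cases h : b x = b y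
  · rw [if_pos h, hB.diag g x y h]
  · rw [if_neg h, hB.off g x y h]

omit [IsLocalRing R] [Finite R] in
private lemma dg_D (hB : BlockData res ρ D b P) (g : Γ) : dg b (D g) = D g := by
  ext x y
  simp only [dg, of_apply]
  by_cases h : b x = b y
  · rw [if_pos h]
  · rw [if_neg h, hB.off g x y h]

omit [IsLocalRing R] [Finite R] in
private lemma tri_D (hB : BlockData res ρ D b P) (g : Γ) : BlockTriangular (D g) b := by
  intro x y h
  exact hB.off g x y (by omega)

theorem exists_conj (hB : BlockData res ρ D b P) (Δ : Subgroup Γ) (hker : ρ.ker ≤ Δ)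
    (hcard : ((ρ.ker.relIndex Δ : ℕ) : F) ≠ 0) :
    ∃ X Y : Matrix (Fin n) (Fin n) R, X * Y = 1 ∧ Y * X = 1 ∧
      (∀ x y, b y < b x → res (X x y) = 0) ∧
      (∀ x y, b x = b y → res (X x y) = if x = y then 1 else 0) ∧
      ∀ δ ∈ Δ, ∀ x y, b x ≠ b y → (Y * ρ δ * X) x y = 0 := by
  classical
  -- the finite quotient
  let N : Subgroup Δ := ρ.ker.subgroupOf Δ
  have hNi : N.index = ρ.ker.relIndex Δ := rfl
  have hN0 : N.index ≠ 0 := by
    intro h
    rw [hNi] at h
    rw [h] at hcard
    simp at hcard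
  have : N.FiniteIndex := ⟨hN0⟩
  let _ : Fintype (Δ ⧸ N) := N.fintypeQuotientOfFiniteIndex
  set m : ℕ := ρ.ker.relIndex Δ with hm
  have hcardQ : Fintype.card (Δ ⧸ N) = m := by
    rw [← hNi, Subgroup.index, Nat.card_eq_fintype_card]
  have hNρ : ∀ k ∈ N, ρ (k : Γ) = 1 := fun k hk => hk
  -- over the residue field
  let rb : Γ →* Matrix (Fin n) (Fin n) F := (res.mapMatrix : Matrix (Fin n) (Fin n) R →+* _).toMonoidHom.comp ρ
  have hrb : ∀ g, rb g = (ρ g).map res := fun g => rfl
  have hND : ∀ k ∈ N, D (k : Γ) = 1 := by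
    intro k hk
    rw [← dg_rho hB, hNρ k hk]
    rw [show ((1 : Matrix (Fin n) (Fin n) R).map res) = 1 from map_one res.mapMatrix, dg_one]
  have hNrb : ∀ k ∈ N, rb (k : Γ) = 1 := by
    intro k hk
    rw [hrb, hNρ k hk]
    exact map_one res.mapMatrix
  let c0 : Δ → Matrix (Fin n) (Fin n) F := fun g => rb (g : Γ) * D (g : Γ)⁻¹
  have hc0 : ∀ g, ∀ k ∈ N, c0 (g * k) = c0 g := by
    intro g k hk
    have h1 : D ((k : Γ)⁻¹) = 1 := by
      have := hND k⁻¹ (N.inv_mem hk)
      simpa using this
    simp only [c0, Subgroup.coe_mul, map_mul, _root_.mul_inv_rev, hNrb k hk, h1, mul_one, one_mul]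
  let Xb : Matrix (Fin n) (Fin n) F := (m : F)⁻¹ • ∑ q : Δ ⧸ N, c0 q.out
  have hXb : ∀ δ : Δ, rb (δ : Γ) * Xb = Xb * D (δ : Γ) := by
    intro δ
    have h1 := sum_out_smul N c0 hc0 δ
    simp only [Xb]
    rw [mul_smul_comm, smul_mul_assoc]
    conv_rhs => rw [← h1]
    rw [Finset.mul_sum, Finset.sum_mul]
    congr 1
    refine Finset.sum_congr rfl fun q _ => ?_
    simp only [c0, Subgroup.coe_mul, map_mul, _root_.mul_inv_rev]
    have h2 : D ((δ : Γ)⁻¹) * D (δ : Γ) = 1 := by rw [← map_mul, inv_mul_cancel, map_one]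
    simp only [mul_assoc, h2, mul_one]
  have hXbt : BlockTriangular Xb b := by
    intro x y h
    simp only [Xb, Matrix.smul_apply, Matrix.sum_apply]
    rw [Finset.sum_eq_zero, smul_zero]
    intro q _
    exact ((tri' hB (q.out : Γ)).mul (tri_D hB (q.out : Γ)⁻¹)) h
  have hXbd : dg b Xb = 1 := by
    have h1 : ∀ q : Δ ⧸ N, dg b (c0 q.out) = 1 := by
      intro q
      simp only [c0]
      rw [hrb, dg_mul b (tri' hB _) (tri_D hB _), dg_rho hB, dg_D hB, ← map_mul, mul_inv_cancel,
        map_one]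
    ext x y
    simp only [dg, of_apply]
    by_cases h : b x = b y
    · rw [if_pos h]
      simp only [Xb, Matrix.smul_apply, Matrix.sum_apply]
      have h2 : ∀ q : Δ ⧸ N, (c0 q.out) x y = (1 : Matrix (Fin n) (Fin n) F) x y := by
        intro q
        have := congrFun (congrFun (h1 q) x) y
        simp only [dg, of_apply, if_pos h] at this
        exact this
      rw [Finset.sum_congr rfl fun q _ => h2 q, Finset.sum_const, Finset.card_univ, hcardQ,
        ← Nat.cast_smul_eq_nsmul F, smul_smul, inv_mul_cancel₀ hcard, one_smul]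
    · rw [if_neg h, one_apply_ne (fun h1 => h (by rw [h1]))]
  have hdetb : Xb.det = 1 := by
    rw [hXbt.det]
    refine Finset.prod_eq_one fun a _ => ?_
    have h1 : Xb.toSquareBlock b a = 1 := by
      ext x y
      have hxy : b x.1 = b y.1 := x.2.trans y.2.symm
      have h2 := congrFun (congrFun hXbd x.1) y.1
      simp only [dg, of_apply, if_pos hxy] at h2
      show Xb x.1 y.1 = _
      rw [h2]
      by_cases h3 : x = y
      · rw [h3, one_apply_eq, one_apply_eq]
      · rw [one_apply_ne h3, one_apply_ne (fun h4 => h3 (Subtype.ext h4))]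
    rw [h1, det_one]
  let Yb : Matrix (Fin n) (Fin n) F := Xb⁻¹
  have hub : IsUnit Xb.det := by rw [hdetb]; exact isUnit_one
  have hXYb : Xb * Yb = 1 := Matrix.mul_nonsing_inv _ hub
  have hYXb : Yb * Xb = 1 := Matrix.nonsing_inv_mul _ hub
  have hYb : ∀ δ : Δ, Yb * rb (δ : Γ) = D (δ : Γ) * Yb := by
    intro δ
    calc Yb * rb (δ : Γ) = Yb * (rb (δ : Γ) * Xb) * Yb := by
          rw [mul_assoc, mul_assoc, hXYb, mul_one]
      _ = D (δ : Γ) * Yb := by rw [hXb, ← mul_assoc, hYXb, one_mul]
  -- block idempotents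
  let B : ℕ := Finset.univ.sup b + 1
  have hbB : ∀ x, b x < B := fun x => Nat.lt_succ_of_le (Finset.le_sup (Finset.mem_univ x))
  let bl : Fin B → Matrix (Fin n) (Fin n) F := fun a =>
    Matrix.diagonal fun x => if b x = a then 1 else 0
  let blR : Fin B → Matrix (Fin n) (Fin n) R := fun a =>
    Matrix.diagonal fun x => if b x = a then 1 else 0
  have hblR : ∀ a, (blR a).map res = bl a := by
    intro a
    ext x y
    simp only [blR, bl, map_apply, diagonal_apply]
    by_cases h : x = y
    · subst h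
      by_cases h2 : b x = a
      · simp [h2]
      · simp [h2]
    · simp [h]
  have hblRc : CompleteOrthogonalIdempotents blR := by
    refine ⟨⟨?_, ?_⟩, ?_⟩
    · intro a
      simp only [IsIdempotentElem, blR, diagonal_mul_diagonal]
      congr 1
      ext x
      by_cases h : b x = a <;> simp [h]
    · intro a a' haa
      simp only [blR, diagonal_mul_diagonal]
      rw [← diagonal_zero]
      congr 1
      ext x
      by_cases h : b x = a
      · have : b x ≠ a' := fun h' => haa (Fin.ext (h.symm.trans h'))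
        simp [this]
      · simp [h]
    · ext x y
      simp only [blR, Matrix.sum_apply, diagonal_apply]
      by_cases h : x = y
      · subst h
        simp only [if_true]
        rw [Finset.sum_eq_single ⟨b x, hbB x⟩]
        · simp
        · intro a _ ha
          rw [if_neg]
          intro h2
          exact ha (Fin.ext h2.symm)
        · simp
      · simp [h]
  have hblc : CompleteOrthogonalIdempotents bl := by
    have h1 := hblRc.map (res.mapMatrix : Matrix (Fin n) (Fin n) R →+* Matrix (Fin n) (Fin n) F)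
    have h2 : (res.mapMatrix : Matrix (Fin n) (Fin n) R →+* Matrix (Fin n) (Fin n) F) ∘ blR = bl := by
      ext1 a
      exact hblR a
    rwa [h2] at h1
  have hDbl : ∀ (g : Γ) a, D g * bl a = bl a * D g := by
    intro g a
    ext x y
    simp only [bl, mul_diagonal, diagonal_mul]
    by_cases h : b x = b y
    · rw [h, mul_comm]
    · rw [hB.off g x y h, zero_mul, mul_zero]
  let eb : Fin B → Matrix (Fin n) (Fin n) F := fun a => Xb * bl a * Yb
  have hebc : CompleteOrthogonalIdempotents eb := by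
    refine ⟨⟨?_, ?_⟩, ?_⟩
    · intro a
      have h1 : bl a * bl a = bl a := hblc.idem a
      show Xb * bl a * Yb * (Xb * bl a * Yb) = Xb * bl a * Yb
      calc Xb * bl a * Yb * (Xb * bl a * Yb) = Xb * bl a * (Yb * Xb) * bl a * Yb := by
            simp only [mul_assoc]
        _ = Xb * (bl a * bl a) * Yb := by rw [hYXb]; simp only [mul_assoc, one_mul]
        _ = _ := by rw [h1]
    · intro a a' haa
      have h1 : bl a * bl a' = 0 := hblc.ortho haa
      show Xb * bl a * Yb * (Xb * bl a' * Yb) = 0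
      calc Xb * bl a * Yb * (Xb * bl a' * Yb) = Xb * bl a * (Yb * Xb) * bl a' * Yb := by
            simp only [mul_assoc]
        _ = Xb * (bl a * bl a') * Yb := by rw [hYXb]; simp only [mul_assoc, one_mul]
        _ = 0 := by rw [h1, mul_zero, zero_mul]
    · show ∑ a, Xb * bl a * Yb = 1
      rw [← Finset.sum_mul, ← Finset.mul_sum, hblc.complete, mul_one, hXYb]
  have hebcomm : ∀ (δ : Δ) a, rb (δ : Γ) * eb a = eb a * rb (δ : Γ) := by
    intro δ a
    show rb (δ : Γ) * (Xb * bl a * Yb) = Xb * bl a * Yb * rb (δ : Γ)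
    rw [mul_assoc (Xb * bl a), hYb, ← mul_assoc, ← mul_assoc, hXb, mul_assoc Xb, hDbl,
      ← mul_assoc, ← mul_assoc]
  -- the centralizer of the image of `Δ`
  let C : Subring (Matrix (Fin n) (Fin n) R) := Subring.centralizer (ρ '' (Δ : Set Γ))
  have hC : ∀ M, M ∈ C ↔ ∀ δ ∈ Δ, ρ δ * M = M * ρ δ := by
    intro M
    rw [Subring.mem_centralizer_iff]
    constructor
    · intro h δ hδ
      exact h _ ⟨δ, hδ, rfl⟩
    · rintro h _ ⟨δ, hδ, rfl⟩
      exact h δ hδ
  let f : C →+* Matrix (Fin n) (Fin n) F :=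
    (res.mapMatrix : Matrix (Fin n) (Fin n) R →+* Matrix (Fin n) (Fin n) F).comp C.subtype
  have hkerm : RingHom.ker res = IsLocalRing.maximalIdeal R :=
    IsLocalRing.eq_maximalIdeal (RingHom.ker_isMaximal_of_surjective res hB.surj)
  have hnil : ∀ x ∈ RingHom.ker f, IsNilpotent x := by
    intro x hx
    obtain ⟨k, hk⟩ := isArtinianRing_iff_isNilpotent_maximalIdeal R |>.mp inferInstance
    refine ⟨k, ?_⟩
    apply Subtype.ext
    have h1 : ∀ i j, (x : Matrix (Fin n) (Fin n) R) i j ∈ IsLocalRing.maximalIdeal R := by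
      intro i j
      rw [← hkerm, RingHom.mem_ker]
      have h2 : (x : Matrix (Fin n) (Fin n) R).map res = 0 := hx
      exact congrFun (congrFun h2 i) j
    ext i j
    have h3 := pow_entry_mem _ _ h1 k i j
    rw [hk] at h3
    simpa using h3
  have hmR : IsUnit ((m : ℕ) : R) := by
    rw [← not_not (a := IsUnit ((m : ℕ) : R)), ← mem_nonunits_iff, ← IsLocalRing.mem_maximalIdeal,
      ← hkerm, RingHom.mem_ker, map_natCast]
    exact hcard
  obtain ⟨mi, hmi⟩ := hmR.exists_left_inv
  have hlift : ∀ M : Matrix (Fin n) (Fin n) F, (∀ δ : Δ, rb (δ : Γ) * M = M * rb (δ : Γ)) →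
      M ∈ f.range := by
    intro M hM
    choose s hs using hB.surj
    let M0 : Matrix (Fin n) (Fin n) R := M.map s
    have hM0 : M0.map res = M := by
      ext i j
      simp [M0, hs]
    let c1 : Δ → Matrix (Fin n) (Fin n) R := fun g => ρ (g : Γ) * M0 * ρ (g : Γ)⁻¹
    have hc1 : ∀ g, ∀ k ∈ N, c1 (g * k) = c1 g := by
      intro g k hk
      have h1 : ρ ((k : Γ)⁻¹) = 1 := by
        have := hNρ k⁻¹ (N.inv_mem hk)
        simpa using this
      simp only [c1, Subgroup.coe_mul, map_mul, _root_.mul_inv_rev, hNρ k hk, h1, mul_one, one_mul]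
    let M1 : Matrix (Fin n) (Fin n) R := mi • ∑ q : Δ ⧸ N, c1 q.out
    have hM1 : M1 ∈ C := by
      rw [hC]
      intro δ hδ
      have h1 := sum_out_smul N c1 hc1 ⟨δ, hδ⟩
      simp only [M1]
      rw [mul_smul_comm, smul_mul_assoc, ← h1]
      rw [show (∑ q : Δ ⧸ N, c1 (⟨δ, hδ⟩ * q.out)) * ρ δ = ∑ q : Δ ⧸ N, ρ δ * c1 q.out from ?_,
        h1, Finset.mul_sum]
      rw [Finset.sum_mul]
      refine Finset.sum_congr rfl fun q _ => ?_
      simp only [c1, Subgroup.coe_mul, map_mul, _root_.mul_inv_rev]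
      have h2 : ρ (δ⁻¹) * ρ δ = 1 := by rw [← map_mul, inv_mul_cancel, map_one]
      simp only [mul_assoc, h2, mul_one]
    refine ⟨⟨M1, hM1⟩, ?_⟩
    show M1.map res = M
    have h3 : ∀ q : Δ ⧸ N, (c1 q.out).map res = M := by
      intro q
      simp only [c1]
      rw [Matrix.map_mul, Matrix.map_mul, hM0, ← hrb, ← hrb, hM, mul_assoc, ← map_mul,
        mul_inv_cancel, map_one, mul_one]
    have h4 : M1.map res = (res mi) • ∑ q : Δ ⧸ N, (c1 q.out).map res := by
      ext i j
      simp only [M1, map_apply, Matrix.smul_apply, Matrix.sum_apply, smul_eq_mul, map_mul, map_sum]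
    rw [h4, Finset.sum_congr rfl fun q _ => h3 q, Finset.sum_const, Finset.card_univ, hcardQ,
      ← Nat.cast_smul_eq_nsmul F, smul_smul, ← map_natCast res m, ← map_mul, hmi, map_one, one_smul]
  obtain ⟨e', he', hfe⟩ := CompleteOrthogonalIdempotents.lift_of_isNilpotent_ker f hnil hebc
    (fun a => hlift _ (fun δ => hebcomm δ a))
  have hfe' : ∀ a, ((e' a : C) : Matrix (Fin n) (Fin n) R).map res = eb a := fun a =>
    congrFun hfe a
  -- the conjugating matrix
  choose s hs using hB.surj
  let X0 : Matrix (Fin n) (Fin n) R := Xb.map s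
  have hX0 : X0.map res = Xb := by
    ext i j
    simp [X0, hs]
  let E : Fin B → Matrix (Fin n) (Fin n) R := fun a => ((e' a : C) : Matrix (Fin n) (Fin n) R)
  have hEi : ∀ a, E a * E a = E a := fun a => congrArg Subtype.val (he'.idem a)
  have hEo : ∀ a a', a ≠ a' → E a * E a' = 0 := fun a a' h => congrArg Subtype.val (he'.ortho h)
  let X : Matrix (Fin n) (Fin n) R := ∑ a, E a * X0 * blR a
  have hXmap : X.map res = Xb := by
    have h1 : X.map res = ∑ a, (E a * X0 * blR a).map res :=
      map_sum (res.mapMatrix : Matrix (Fin n) (Fin n) R →+* Matrix (Fin n) (Fin n) F) _ _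
    rw [h1]
    have h2 : ∀ a, (E a * X0 * blR a).map res = Xb * bl a := by
      intro a
      rw [Matrix.map_mul, Matrix.map_mul, hfe', hX0, hblR]
      have h3 : bl a * bl a = bl a := hblc.idem a
      show Xb * bl a * Yb * Xb * bl a = Xb * bl a
      rw [mul_assoc (Xb * bl a), hYXb, mul_one, mul_assoc, h3]
    rw [Finset.sum_congr rfl fun a _ => h2 a, ← Finset.mul_sum, hblc.complete, mul_one]
  have hEX : ∀ a, E a * X = X * blR a := by
    intro a
    simp only [X, Finset.mul_sum, Finset.sum_mul]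
    rw [Finset.sum_eq_single a, Finset.sum_eq_single a]
    · rw [mul_assoc (E a * X0), hblRc.idem a, mul_assoc (E a), ← mul_assoc (E a), hEi]
    · intro a' _ h
      rw [mul_assoc (E a' * X0), hblRc.ortho h, mul_zero]
    · simp
    · intro a' _ h
      rw [mul_assoc (E a'), ← mul_assoc (E a), hEo _ _ (Ne.symm h), zero_mul]
    · simp
  have hXu : IsUnit X.det := by
    have h1 : res X.det = 1 := by
      rw [RingHom.map_det]
      exact (congrArg Matrix.det hXmap).trans hdetb
    by_contra h2
    rw [← mem_nonunits_iff, ← IsLocalRing.mem_maximalIdeal, ← hkerm, RingHom.mem_ker, h1] at h2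
    exact one_ne_zero h2
  have hXY : X * X⁻¹ = 1 := Matrix.mul_nonsing_inv _ hXu
  have hYX : X⁻¹ * X = 1 := Matrix.nonsing_inv_mul _ hXu
  have hYE : ∀ a, X⁻¹ * E a = blR a * X⁻¹ := by
    intro a
    calc X⁻¹ * E a = X⁻¹ * (E a * X) * X⁻¹ := by rw [mul_assoc, mul_assoc, hXY, mul_one]
      _ = blR a * X⁻¹ := by rw [hEX, ← mul_assoc, hYX, one_mul]
  refine ⟨X, X⁻¹, hXY, hYX, ?_, ?_, ?_⟩
  · intro x y h
    have := hXbt h
    rw [← hXmap] at this
    exact this
  · intro x y h
    have h1 := congrFun (congrFun hXbd x) y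
    simp only [dg, of_apply, if_pos h] at h1
    rw [← hXmap, map_apply, one_apply] at h1
    exact h1
  · intro δ hδ x y hxy
    have h1 : ∀ a, (X⁻¹ * ρ δ * X) * blR a = blR a * (X⁻¹ * ρ δ * X) := by
      intro a
      have h2 : ρ δ * E a = E a * ρ δ := (hC _).1 (e' a).2 δ hδ
      calc (X⁻¹ * ρ δ * X) * blR a = X⁻¹ * ρ δ * (X * blR a) := mul_assoc _ _ _
        _ = X⁻¹ * (ρ δ * E a) * X := by rw [← hEX]; simp only [mul_assoc]
        _ = (X⁻¹ * E a) * ρ δ * X := by rw [h2]; simp only [mul_assoc]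
        _ = blR a * (X⁻¹ * ρ δ * X) := by rw [hYE]; simp only [mul_assoc]
    have h3 := congrFun (congrFun (h1 ⟨b y, hbB y⟩) x) y
    simp only [blR, mul_diagonal, diagonal_mul] at h3
    rw [if_neg (show ¬ (b x = b y) from hxy)] at h3
    simpa using h3

/-- conjugation by such a matrix does not change the block data -/
theorem blockData_conj (hB : BlockData res ρ D b P) {X Y : Matrix (Fin n) (Fin n) R}
    (hXY : X * Y = 1) (hYX : Y * X = 1) (h1 : ∀ x y, b y < b x → res (X x y) = 0)
    (h2 : ∀ x y, b x = b y → res (X x y) = if x = y then 1 else 0)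
    (ρ' : Γ →* Matrix (Fin n) (Fin n) R) (hρ' : ∀ g, ρ' g = Y * ρ g * X) :
    BlockData res ρ' D b P := by
  classical
  have hXY' : X.map res * Y.map res = 1 := by
    rw [← Matrix.map_mul, hXY]
    exact map_one res.mapMatrix
  have hYX' : Y.map res * X.map res = 1 := by
    rw [← Matrix.map_mul, hYX]
    exact map_one res.mapMatrix
  have hXt : BlockTriangular (X.map res) b := fun x y h => h1 x y h
  have hYt : BlockTriangular (Y.map res) b := by
    let _ : Invertible (X.map res) := ⟨Y.map res, hYX', hXY'⟩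
    have h3 : (X.map res)⁻¹ = Y.map res := Matrix.inv_eq_left_inv hYX'
    rw [← h3]
    exact blockTriangular_inv_of_blockTriangular hXt
  have hXd : dg b (X.map res) = 1 := by
    ext x y
    simp only [dg, of_apply, map_apply]
    by_cases h : b x = b y
    · rw [if_pos h, h2 x y h, one_apply]
    · rw [if_neg h, one_apply_ne (fun h1 => h (by rw [h1]))]
  have hYd : dg b (Y.map res) = 1 := by
    have h3 := dg_mul b hYt hXt
    rw [hXd, mul_one, hYX', dg_one] at h3
    exact h3.symm
  have hmap : ∀ g, (ρ' g).map res = Y.map res * (ρ g).map res * X.map res := by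
    intro g
    rw [hρ', Matrix.map_mul, Matrix.map_mul]
  have ht : ∀ g, BlockTriangular ((ρ' g).map res) b := by
    intro g
    rw [hmap]
    exact (hYt.mul (tri' hB g)).mul hXt
  have hd : ∀ g, dg b ((ρ' g).map res) = D g := by
    intro g
    rw [hmap, dg_mul b (hYt.mul (tri' hB g)) hXt, dg_mul b hYt (tri' hB g), hXd, hYd, one_mul,
      mul_one, dg_rho hB]
  refine ⟨hB.surj, fun g x y h => ht g h, ?_, hB.off, hB.triv, hB.index⟩
  intro g x y h
  rw [← hd g]
  simp only [dg, of_apply, map_apply]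
  rw [if_pos h]

end Pool.Agent.Helper27.TG
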