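import Pool.Agent.Helper27.TG.Avg

/-!
# TG-5: non-scalar loops
-/

set_option autoImplicit false

open Matrix

namespace Pool.Agent.Helper27.TG

variable {Γ : Type} [Group Γ] {R F : Type} [CommRing R] [Field F]
  {n : ℕ} {res : R →+* F} {ρ : Γ →* Matrix (Fin n) (Fin n) R}
  {D : Γ →* Matrix (Fin n) (Fin n) F} {b : Fin n → ℕ} {P : Subgroup Γ}

private theorem dc_zero {I : Ideal R} {φ : R → F}
    (hφ : ∀ u ∈ I, ∀ v ∈ I, φ (u + v) = φ u + φ v) : φ 0 = 0 := by
  have h := hφ 0 I.zero_mem 0 I.zero_mem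
  rw [add_zero] at h
  have h2 : φ 0 + 0 = φ 0 + φ 0 := by rw [add_zero]; exact h
  exact (add_left_cancel h2).symm

private theorem dc_neg {I : Ideal R} {φ : R → F}
    (hφ : ∀ u ∈ I, ∀ v ∈ I, φ (u + v) = φ u + φ v) {u : R} (hu : u ∈ I) : φ (-u) = -φ u := by
  have h := hφ u hu (-u) (I.neg_mem hu)
  rw [add_neg_cancel, dc_zero hφ] at h
  exact (neg_eq_of_add_eq_zero_right h.symm).symm

private theorem dc_sub {I : Ideal R} {φ : R → F}
    (hφ : ∀ u ∈ I, ∀ v ∈ I, φ (u + v) = φ u + φ v) {u v : R} (hu : u ∈ I) (hv : v ∈ I) :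
    φ (u - v) = φ u - φ v := by
  rw [sub_eq_add_neg, hφ u hu (-v) (I.neg_mem hv), dc_neg hφ hv, sub_eq_add_neg]

private theorem dc_sum {ι : Type} {I : Ideal R} {φ : R → F}
    (hφ : ∀ u ∈ I, ∀ v ∈ I, φ (u + v) = φ u + φ v) (s : Finset ι) (f : ι → R)
    (hf : ∀ i ∈ s, f i ∈ I) : φ (∑ i ∈ s, f i) = ∑ i ∈ s, φ (f i) := by
  classical
  induction s using Finset.induction_on with
  | empty => simpa using dc_zero hφ
  | insert i s hi ih =>
    rw [Finset.sum_insert hi, Finset.sum_insert hi,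
      hφ _ (hf i (Finset.mem_insert_self i s)) _
        (I.sum_mem fun j hj => hf j (Finset.mem_insert_of_mem hj)),
      ih fun j hj => hf j (Finset.mem_insert_of_mem hj)]

private theorem dc_mul {I : Ideal R} {φ : R → F}
    (hφ : ∀ u ∈ I, ∀ v ∈ I, φ (u + v) = φ u + φ v)
    (hφ' : ∀ (r : R), ∀ u ∈ I, φ (r * u) = res r * φ u) {w : R}
    (hw : w ∈ RingHom.ker res * I) : w ∈ I ∧ φ w = 0 := by
  refine Submodule.mul_induction_on hw ?_ ?_
  · intro r hr u hu
    refine ⟨I.mul_mem_left r hu, ?_⟩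
    rw [hφ' r u hu, (RingHom.mem_ker).1 hr, zero_mul]
  · rintro u v ⟨hu, hu'⟩ ⟨hv, hv'⟩
    exact ⟨I.add_mem hu hv, by rw [hφ u hu v hv, hu', hv', add_zero]⟩

/-- the matrix `ρ g` minus its entry at `x0` times the identity -/
private def dcM (ρ : Γ →* Matrix (Fin n) (Fin n) R) (x0 : Fin n) (g : Γ) :
    Matrix (Fin n) (Fin n) R :=
  fun x y => ρ g x y - if x = y then ρ g x0 x0 else 0

private def dcK (ρ : Γ →* Matrix (Fin n) (Fin n) R) (φ : R → F) (b : Fin n → ℕ) (a : ℕ)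
    (x0 : Fin n) (g : Γ) : Matrix (Fin n) (Fin n) F :=
  fun x y => if b x = a ∧ b y = a then φ (dcM ρ x0 g x y) else 0

private theorem dcM_memI {I : Ideal R} {a : ℕ} {x0 : Fin n} (hx0 : b x0 = a)
    (hmem : ∀ g ∈ P, ∀ x y, b x = a → b y = a → x ≠ y → ρ g x y ∈ I)
    (hmem' : ∀ g ∈ P, ∀ x y, b x = a → b y = a → ρ g x x - ρ g y y ∈ I)
    {g : Γ} (hg : g ∈ P) {x y : Fin n} (hx : b x = a) (hy : b y = a) : dcM ρ x0 g x y ∈ I := by
  unfold dcM
  split_ifs with h
  · subst h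
    exact hmem' g hg x x0 hx hx0
  · rw [sub_zero]
    exact hmem g hg x y hx hy h

private theorem dc_res (hB : BlockData res ρ D b P) {g : Γ} (hg : g ∈ P) {x y : Fin n}
    (hxy : b x = b y) : res (ρ g x y) = if x = y then 1 else 0 := by
  rw [← hB.diag g x y hxy, hB.triv g hg, Matrix.one_apply]

private theorem dcM_memker (hB : BlockData res ρ D b P) {a : ℕ} {x0 : Fin n}
    {g : Γ} (hg : g ∈ P) {x y : Fin n} (hx : b x = a) (hy : b y = a) :
    dcM ρ x0 g x y ∈ RingHom.ker res := by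
  rw [RingHom.mem_ker]
  unfold dcM
  rw [map_sub, dc_res hB hg (hx.trans hy.symm)]
  split_ifs with h
  · rw [dc_res hB hg rfl, if_pos rfl, sub_self]
  · rw [map_zero, sub_zero]

private theorem dcM_self {x0 : Fin n} (g : Γ) : dcM ρ x0 g x0 x0 = 0 := by
  unfold dcM
  rw [if_pos rfl, sub_self]

private theorem dcM_eq {x0 : Fin n} (g : Γ) (x y : Fin n) :
    ρ g x y = dcM ρ x0 g x y + if x = y then ρ g x0 x0 else 0 := by
  unfold dcM
  rw [sub_add_cancel]

/-- the product formula modulo `ker res * I` -/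
private theorem dc_prod (hB : BlockData res ρ D b P) {I : Ideal R} {a : ℕ} {x0 : Fin n}
    (hx0 : b x0 = a)
    (hmem : ∀ g ∈ P, ∀ x y, b x = a → b y = a → x ≠ y → ρ g x y ∈ I)
    (hmem' : ∀ g ∈ P, ∀ x y, b x = a → b y = a → ρ g x x - ρ g y y ∈ I)
    (hmid : ∀ g ∈ P, ∀ h ∈ P, ∀ x y z, b x = a → b y = a → b z ≠ a →
      ρ g x z * ρ h z y ∈ RingHom.ker res * I)
    {g h : Γ} (hg : g ∈ P) (hh : h ∈ P) {x y : Fin n} (hx : b x = a) (hy : b y = a) :
    ∃ e ∈ RingHom.ker res * I, ρ (g * h) x y =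
      ρ g x0 x0 * dcM ρ x0 h x y + ρ h x0 x0 * dcM ρ x0 g x y +
        (if x = y then ρ g x0 x0 * ρ h x0 x0 else 0) + e := by
  classical
  have key : ∀ z, ∃ e ∈ RingHom.ker res * I, ρ g x z * ρ h z y =
      (if x = z then ρ g x0 x0 * dcM ρ x0 h x y else 0) +
        (if z = y then ρ h x0 x0 * dcM ρ x0 g x y else 0) +
        (if x = z then (if x = y then ρ g x0 x0 * ρ h x0 x0 else 0) else 0) + e := by
    intro z
    by_cases hz : b z = a
    · refine ⟨dcM ρ x0 g x z * dcM ρ x0 h z y, Ideal.mul_mem_mul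
        (dcM_memker hB hg hx hz) (dcM_memI hx0 hmem hmem' hh hz hy), ?_⟩
      rw [dcM_eq (x0 := x0) g x z, dcM_eq (x0 := x0) h z y]
      by_cases h1 : x = z
      · subst h1
        by_cases h2 : x = y
        · subst h2
          simp only [if_true]
          ring
        · simp only [if_true, h2, if_false]
          ring
      · by_cases h2 : z = y
        · subst h2
          simp only [if_true, h1, if_false]
          ring
        · simp only [h1, h2, if_false]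
          ring
    · refine ⟨ρ g x z * ρ h z y, hmid g hg h hh x y z hx hy hz, ?_⟩
      have h1 : x ≠ z := fun h => hz (h ▸ hx)
      have h2 : z ≠ y := fun h => hz (h ▸ hy)
      rw [if_neg h1, if_neg h2, if_neg h1]
      ring
  choose e he hE using key
  refine ⟨∑ z, e z, Ideal.sum_mem _ fun z _ => he z, ?_⟩
  rw [map_mul, Matrix.mul_apply, Finset.sum_congr rfl fun z _ => hE z]
  rw [Finset.sum_add_distrib, Finset.sum_add_distrib, Finset.sum_add_distrib]
  simp only [Finset.sum_ite_eq, Finset.sum_ite_eq', Finset.mem_univ, if_true]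

private theorem dcK_mul (hB : BlockData res ρ D b P) {I : Ideal R} {φ : R → F}
    (hφ : ∀ u ∈ I, ∀ v ∈ I, φ (u + v) = φ u + φ v)
    (hφ' : ∀ (r : R), ∀ u ∈ I, φ (r * u) = res r * φ u) {a : ℕ} {x0 : Fin n}
    (hx0 : b x0 = a)
    (hmem : ∀ g ∈ P, ∀ x y, b x = a → b y = a → x ≠ y → ρ g x y ∈ I)
    (hmem' : ∀ g ∈ P, ∀ x y, b x = a → b y = a → ρ g x x - ρ g y y ∈ I)
    (hmid : ∀ g ∈ P, ∀ h ∈ P, ∀ x y z, b x = a → b y = a → b z ≠ a →
      ρ g x z * ρ h z y ∈ RingHom.ker res * I)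
    {g h : Γ} (hg : g ∈ P) (hh : h ∈ P) :
    dcK ρ φ b a x0 (g * h) = dcK ρ φ b a x0 g + dcK ρ φ b a x0 h := by
  ext x y
  rw [Matrix.add_apply]
  unfold dcK
  by_cases hxy : b x = a ∧ b y = a
  swap
  · rw [if_neg hxy, if_neg hxy, if_neg hxy, add_zero]
  rw [if_pos hxy, if_pos hxy, if_pos hxy]
  obtain ⟨hx, hy⟩ := hxy
  obtain ⟨e, he, hE⟩ := dc_prod hB hx0 hmem hmem' hmid hg hh hx hy
  obtain ⟨e0, he0, hE0⟩ := dc_prod hB hx0 hmem hmem' hmid hg hh hx0 hx0
  obtain ⟨heI, heφ⟩ := dc_mul hφ hφ' he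
  obtain ⟨he0I, he0φ⟩ := dc_mul hφ hφ' he0
  have hMg := dcM_memI hx0 hmem hmem' hg hx hy
  have hMh := dcM_memI hx0 hmem hmem' hh hx hy
  have h1 : dcM ρ x0 (g * h) x y = ρ h x0 x0 * dcM ρ x0 g x y + ρ g x0 x0 * dcM ρ x0 h x y +
      (e - if x = y then e0 else 0) := by
    have h2 : dcM ρ x0 (g * h) x y =
        ρ (g * h) x y - if x = y then ρ (g * h) x0 x0 else 0 := rfl
    rw [h2, hE, hE0, dcM_self, dcM_self, if_pos rfl]
    split_ifs with h3
    · ring
    · ring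
  have hite : (if x = y then e0 else 0) ∈ I := by
    split_ifs
    · exact he0I
    · exact I.zero_mem
  have hiteφ : φ (if x = y then e0 else 0) = 0 := by
    split_ifs
    · exact he0φ
    · exact dc_zero hφ
  rw [h1, hφ _ (I.add_mem (I.mul_mem_left _ hMg) (I.mul_mem_left _ hMh)) _
    (I.sub_mem heI hite), hφ _ (I.mul_mem_left _ hMg) _ (I.mul_mem_left _ hMh),
    hφ' _ _ hMg, hφ' _ _ hMh, dc_sub hφ heI hite, heφ, hiteφ, dc_res hB hh rfl,
    dc_res hB hg rfl, if_pos rfl, one_mul, one_mul, sub_zero, add_zero]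

private theorem dcK_support {φ : R → F} {a : ℕ} {x0 : Fin n} (g : Γ) {x y : Fin n}
    (h : dcK ρ φ b a x0 g x y ≠ 0) : b y = a ∧ b x = a := by
  unfold dcK at h
  by_cases hxy : b x = a ∧ b y = a
  · exact ⟨hxy.2, hxy.1⟩
  · rw [if_neg hxy] at h
    exact absurd rfl h

private theorem dcK_one {I : Ideal R} {φ : R → F}
    (hφ : ∀ u ∈ I, ∀ v ∈ I, φ (u + v) = φ u + φ v) {a : ℕ} {x0 : Fin n} {g : Γ}
    (hg : ρ g = 1) : dcK ρ φ b a x0 g = 0 := by
  ext x y
  unfold dcK dcM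
  rw [hg, Matrix.one_apply, Matrix.one_apply, if_pos rfl, sub_self, dc_zero hφ, ite_self,
    Matrix.zero_apply]

/-- conjugation by an element of the complement -/
private theorem dcK_conj (hB : BlockData res ρ D b P) {I : Ideal R} {φ : R → F}
    (hφ : ∀ u ∈ I, ∀ v ∈ I, φ (u + v) = φ u + φ v)
    (hφ' : ∀ (r : R), ∀ u ∈ I, φ (r * u) = res r * φ u) {a : ℕ} {x0 : Fin n}
    (hx0 : b x0 = a)
    (hmem : ∀ g ∈ P, ∀ x y, b x = a → b y = a → x ≠ y → ρ g x y ∈ I)
    (hmem' : ∀ g ∈ P, ∀ x y, b x = a → b y = a → ρ g x x - ρ g y y ∈ I)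
    {δ : Γ} (hδ : ∀ x y, b x ≠ b y → ρ δ x y = 0) (hδ' : ∀ x y, b x ≠ b y → ρ δ⁻¹ x y = 0)
    {g : Γ} (hg : g ∈ P) :
    ∃ s : F, dcK ρ φ b a x0 (δ * g * δ⁻¹) = D δ * dcK ρ φ b a x0 g * D δ⁻¹ - s • blk b a := by
  classical
  have hform : ∀ x y, b x = a → b y = a →
      ∃ N ∈ I, φ N = (D δ * dcK ρ φ b a x0 g * D δ⁻¹) x y ∧
        ρ (δ * g * δ⁻¹) x y = N + if x = y then ρ g x0 x0 else 0 := by
    intro x y hx hy
    refine ⟨∑ w, (∑ z, if b z = a ∧ b w = a then ρ δ⁻¹ w y * ρ δ x z * dcM ρ x0 g z w else 0),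
      ?_, ?_, ?_⟩
    · refine Ideal.sum_mem _ fun w _ => Ideal.sum_mem _ fun z _ => ?_
      split_ifs with h
      · exact I.mul_mem_left _ (dcM_memI hx0 hmem hmem' hg h.1 h.2)
      · exact I.zero_mem
    · rw [dc_sum hφ]
      swap
      · intro w _
        refine Ideal.sum_mem _ fun z _ => ?_
        split_ifs with h
        · exact I.mul_mem_left _ (dcM_memI hx0 hmem hmem' hg h.1 h.2)
        · exact I.zero_mem
      rw [Matrix.mul_apply]
      refine Finset.sum_congr rfl fun w _ => ?_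
      rw [dc_sum hφ]
      swap
      · intro z _
        split_ifs with h
        · exact I.mul_mem_left _ (dcM_memI hx0 hmem hmem' hg h.1 h.2)
        · exact I.zero_mem
      rw [Matrix.mul_apply, Finset.sum_mul]
      refine Finset.sum_congr rfl fun z _ => ?_
      unfold dcK
      by_cases h : b z = a ∧ b w = a
      · rw [if_pos h, if_pos h, hφ' _ _ (dcM_memI hx0 hmem hmem' hg h.1 h.2), map_mul,
          hB.diag δ x z (hx.trans h.1.symm), hB.diag δ⁻¹ w y (h.2.trans hy.symm)]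
        ring
      · rw [if_neg h, if_neg h, dc_zero hφ, mul_zero, zero_mul]
    · have h1 : (if x = y then ρ g x0 x0 else 0) =
          ∑ w, (∑ z, if b z = a ∧ b w = a then
            ρ δ⁻¹ w y * ρ δ x z * (if z = w then ρ g x0 x0 else 0) else 0) := by
        have h2 : (ρ δ * ρ δ⁻¹) x y = if x = y then 1 else 0 := by
          rw [← map_mul, mul_inv_cancel, map_one, Matrix.one_apply]
        have h3 : (if x = y then ρ g x0 x0 else 0) = (ρ δ * ρ δ⁻¹) x y * ρ g x0 x0 := by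
          rw [h2]
          split_ifs
          · rw [one_mul]
          · rw [zero_mul]
        rw [h3, Matrix.mul_apply, Finset.sum_mul]
        refine Finset.sum_congr rfl fun w _ => ?_
        rw [Finset.sum_eq_single w]
        · by_cases hw : b w = a
          · rw [if_pos ⟨hw, hw⟩, if_pos rfl]
            ring
          · rw [if_neg fun h => hw h.1, hδ x w fun h => hw (h ▸ hx), zero_mul, zero_mul]
        · intro z _ hz
          rw [if_neg hz, mul_zero, ite_self]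
        · intro hw
          exact absurd (Finset.mem_univ w) hw
      rw [h1, ← Finset.sum_add_distrib, map_mul, map_mul, Matrix.mul_apply]
      refine Finset.sum_congr rfl fun w _ => ?_
      rw [← Finset.sum_add_distrib, Matrix.mul_apply, Finset.sum_mul]
      refine Finset.sum_congr rfl fun z _ => ?_
      by_cases h : b z = a ∧ b w = a
      · rw [if_pos h, if_pos h, dcM_eq (x0 := x0) g z w]
        ring
      · rw [if_neg h, if_neg h, add_zero]
        by_cases hz : b z = a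
        · have hw : b w ≠ a := fun hw => h ⟨hz, hw⟩
          rw [hδ' w y fun h' => hw (h'.trans hy), mul_zero]
        · rw [hδ x z fun h' => hz (h'.symm.trans hx), zero_mul, zero_mul]
  refine ⟨(D δ * dcK ρ φ b a x0 g * D δ⁻¹) x0 x0, ?_⟩
  obtain ⟨N0, hN0, hN0φ, hN0'⟩ := hform x0 x0 hx0 hx0
  ext x y
  rw [Matrix.sub_apply, Matrix.smul_apply]
  by_cases hxy : b x = a ∧ b y = a
  · obtain ⟨hx, hy⟩ := hxy
    obtain ⟨N, hN, hNφ, hN'⟩ := hform x y hx hy
    have hL : dcK ρ φ b a x0 (δ * g * δ⁻¹) x y =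
        φ (ρ (δ * g * δ⁻¹) x y - if x = y then ρ (δ * g * δ⁻¹) x0 x0 else 0) := by
      unfold dcK dcM
      rw [if_pos ⟨hx, hy⟩]
    rw [hL, hN', hN0', if_pos rfl, ← hNφ, ← hN0φ]
    unfold blk
    rw [Matrix.diagonal_apply]
    by_cases h : x = y
    · rw [if_pos h, if_pos h, if_pos h, if_pos hx, smul_eq_mul, mul_one, ← dc_sub hφ hN hN0]
      congr 1
      ring
    · rw [if_neg h, if_neg h, if_neg h, add_zero, sub_zero, smul_zero, sub_zero]
  · have hL : dcK ρ φ b a x0 (δ * g * δ⁻¹) x y = 0 := by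
      unfold dcK
      rw [if_neg hxy]
    have hblk : blk (F := F) b a x y = 0 := by
      unfold blk
      rw [Matrix.diagonal_apply]
      split_ifs with h1 h2
      · exact absurd ⟨h2, h1 ▸ h2⟩ hxy
      · rfl
      · rfl
    have hR : (D δ * dcK ρ φ b a x0 g * D δ⁻¹) x y = 0 := by
      rw [Matrix.mul_apply]
      refine Finset.sum_eq_zero fun w _ => ?_
      rw [Matrix.mul_apply, Finset.sum_mul]
      refine Finset.sum_eq_zero fun z _ => ?_
      by_cases h : dcK ρ φ b a x0 g z w = 0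
      · rw [h, mul_zero, zero_mul]
      · obtain ⟨hw, hz⟩ := dcK_support g h
        by_cases hx : b x = a
        · have hy : b y ≠ a := fun hy => hxy ⟨hx, hy⟩
          rw [hB.off δ⁻¹ w y fun h' => hy (h'.symm.trans hw), mul_zero]
        · rw [hB.off δ x z fun h' => hx (h'.trans hz), zero_mul, zero_mul]
    rw [hL, hblk, hR, smul_zero, sub_zero]

private theorem blk_conj (hB : BlockData res ρ D b P) (a : ℕ) (h : Γ) :
    D h * blk b a * D h⁻¹ = blk b a := by
  have h1 : D h * blk b a = blk b a * D h := by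
    ext x y
    unfold blk
    rw [Matrix.mul_diagonal, Matrix.diagonal_mul]
    by_cases hxy : b x = b y
    · rw [hxy, mul_comm]
    · rw [hB.off h x y hxy, zero_mul, mul_zero]
  rw [h1, Matrix.mul_assoc, ← map_mul, mul_inv_cancel, map_one, Matrix.mul_one]

theorem kEdge_diag [P.Normal] (hB : BlockData res ρ D b P) (Δ : Subgroup Γ)
    (hΔ : ∀ γ : Γ, ∃ g ∈ P, ∃ δ ∈ Δ, γ = g * δ)
    (hdiag : ∀ δ ∈ Δ, ∀ x y, b x ≠ b y → ρ δ x y = 0)
    (I : Ideal R) (φ : R → F) (hφ : ∀ u ∈ I, ∀ v ∈ I, φ (u + v) = φ u + φ v)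
    (hφ' : ∀ (r : R), ∀ u ∈ I, φ (r * u) = res r * φ u) {a : ℕ}
    (hmem : ∀ g ∈ P, ∀ x y, b x = a → b y = a → x ≠ y → ρ g x y ∈ I)
    (hmem' : ∀ g ∈ P, ∀ x y, b x = a → b y = a → ρ g x x - ρ g y y ∈ I)
    (hmid : ∀ g ∈ P, ∀ h ∈ P, ∀ x y z, b x = a → b y = a → b z ≠ a →
      ρ g x z * ρ h z y ∈ RingHom.ker res * I)
    (hne : (∃ g ∈ P, ∃ x y, b x = a ∧ b y = a ∧ x ≠ y ∧ φ (ρ g x y) ≠ 0) ∨
      ∃ g ∈ P, ∃ x y, b x = a ∧ b y = a ∧ φ (ρ g x x - ρ g y y) ≠ 0) : KEdge ρ D b P a a := by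
  classical
  have hx0 : ∃ x0, b x0 = a := by
    rcases hne with ⟨g, _, x, y, hx, _⟩ | ⟨g, _, x, y, hx, _⟩
    · exact ⟨x, hx⟩
    · exact ⟨x, hx⟩
  obtain ⟨x0, hx0⟩ := hx0
  obtain ⟨f, hf1, hf2⟩ := exists_functional D b P hB.triv hB.index hB.off x0
  rw [hx0] at hf1
  have hmul : ∀ g ∈ P, ∀ h ∈ P, dcK ρ φ b a x0 (g * h) = dcK ρ φ b a x0 g + dcK ρ φ b a x0 h :=
    fun g hg h hh => dcK_mul hB hφ hφ' hx0 hmem hmem' hmid hg hh
  have hone : dcK ρ φ b a x0 1 = 0 := dcK_one hφ (map_one ρ)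
  have hPconj : ∀ g1 ∈ P, ∀ u ∈ P, dcK ρ φ b a x0 (g1 * u * g1⁻¹) = dcK ρ φ b a x0 u := by
    intro g1 hg1 u hu
    have hinv : dcK ρ φ b a x0 g1 + dcK ρ φ b a x0 g1⁻¹ = 0 := by
      rw [← hmul g1 hg1 g1⁻¹ (P.inv_mem hg1), mul_inv_cancel, hone]
    rw [hmul _ (P.mul_mem hg1 hu) _ (P.inv_mem hg1), hmul _ hg1 _ hu, add_right_comm, hinv,
      zero_add]
  have hconj : ∀ h, ∀ g ∈ P, ∃ s : F,
      dcK ρ φ b a x0 (h * g * h⁻¹) = D h * dcK ρ φ b a x0 g * D h⁻¹ - s • blk b a := by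
    intro h g hg
    obtain ⟨g1, hg1, δ, hδ, rfl⟩ := hΔ h
    obtain ⟨s, hs⟩ := dcK_conj hB hφ hφ' hx0 hmem hmem' (hdiag δ hδ)
      (hdiag δ⁻¹ (Δ.inv_mem hδ)) hg
    refine ⟨s, ?_⟩
    have h1 : g1 * δ * g * (g1 * δ)⁻¹ = g1 * (δ * g * δ⁻¹) * g1⁻¹ := by group
    have h2 : D (g1 * δ) = D δ := by rw [map_mul, hB.triv g1 hg1, one_mul]
    have h3 : D (g1 * δ)⁻¹ = D δ⁻¹ := by
      rw [_root_.mul_inv_rev, map_mul, hB.triv g1⁻¹ (P.inv_mem hg1), mul_one]
    rw [h1, hPconj g1 hg1 _ (Subgroup.Normal.conj_mem inferInstance g hg δ), hs, h2, h3]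
  refine ⟨fun g => dcK ρ φ b a x0 g - f (dcK ρ φ b a x0 g) • blk b a, ?_, ?_, ?_, ?_, ?_⟩
  · intro g _ x y hxy
    by_contra hcon
    apply hxy
    have h1 : dcK ρ φ b a x0 g x y = 0 := by
      by_contra h
      exact hcon (dcK_support g h)
    have h2 : blk (F := F) b a x y = 0 := by
      unfold blk
      rw [Matrix.diagonal_apply]
      split_ifs with h3 h4
      · exact absurd ⟨h3 ▸ h4, h4⟩ hcon
      · rfl
      · rfl
    change (dcK ρ φ b a x0 g - f (dcK ρ φ b a x0 g) • blk b a : Matrix (Fin n) (Fin n) F) x y = 0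
    rw [Matrix.sub_apply, Matrix.smul_apply, h1, h2, smul_zero, sub_zero]
  · intro g hg h hh
    simp only [hmul g hg h hh, map_add, add_smul]
    abel
  · intro h g hg
    obtain ⟨s, hs⟩ := hconj h g hg
    simp only [hs, map_sub, hf2, map_smul, hf1]
    rw [Matrix.mul_sub, Matrix.sub_mul, Matrix.mul_smul, Matrix.smul_mul, blk_conj hB,
      smul_eq_mul, mul_one, sub_smul]
    abel
  · intro g _ hg
    simp only [dcK_one hφ hg, map_zero, zero_smul, sub_zero]
  · by_contra hcon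
    push Not at hcon
    have hzero : ∀ g ∈ P, ∀ x y, b x = a → b y = a → φ (dcM ρ x0 g x y) = 0 := by
      intro g hg x y hx hy
      obtain ⟨s, hs⟩ := hcon g hg
      have h1 : dcK ρ φ b a x0 g = (s + f (dcK ρ φ b a x0 g)) • blk b a := by
        rw [add_smul, ← hs, sub_add_cancel]
      have h2 : dcK ρ φ b a x0 g x0 x0 = 0 := by
        unfold dcK
        rw [if_pos ⟨hx0, hx0⟩, dcM_self, dc_zero hφ]
      have h3 : blk (F := F) b a x0 x0 = 1 := by
        unfold blk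
        rw [Matrix.diagonal_apply, if_pos rfl, if_pos hx0]
      have h4 : s + f (dcK ρ φ b a x0 g) = 0 := by
        have h5 := congrFun (congrFun h1 x0) x0
        rw [h2, Matrix.smul_apply, h3, smul_eq_mul, mul_one] at h5
        exact h5.symm
      rw [h4, zero_smul] at h1
      have h6 := congrFun (congrFun h1 x) y
      unfold dcK at h6
      rw [if_pos ⟨hx, hy⟩] at h6
      exact h6
    rcases hne with ⟨g, hg, x, y, hx, hy, hxy, hne⟩ | ⟨g, hg, x, y, hx, hy, hne⟩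
    · apply hne
      have h := hzero g hg x y hx hy
      unfold dcM at h
      rwa [if_neg hxy, sub_zero] at h
    · apply hne
      have h1 := hzero g hg x x hx hx
      have h2 := hzero g hg y y hy hy
      have h3 : ρ g x x - ρ g y y = dcM ρ x0 g x x - dcM ρ x0 g y y := by
        unfold dcM
        rw [if_pos rfl, if_pos rfl]
        ring
      rw [h3, dc_sub hφ (dcM_memI hx0 hmem hmem' hg hx hx) (dcM_memI hx0 hmem hmem' hg hy hy),
        h1, h2, sub_zero]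

end Pool.Agent.Helper27.TG
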