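import Pool.Agent.Helper27.TG.Defs

/-!
# TG-7: products of strictly triangular matrices
-/

set_option autoImplicit false

open Matrix

namespace Pool.Agent.Helper27.TG

/-- a relation without infinite walks has no closed walks -/
theorem irrefl_of_noWalk (E : ℕ → ℕ → Prop) (hno : ¬ ∃ c : ℕ → ℕ, ∀ m, E (c m) (c (m + 1)))
    (a : ℕ) : ¬ Relation.TransGen E a a := by
  intro ha
  have hstep : ∀ v : {v // Relation.TransGen E v a}, ∃ w : {v // Relation.TransGen E v a},
      E v.1 w.1 := by
    rintro ⟨v, hv⟩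
    obtain ⟨w, hvw, hwa⟩ := Relation.TransGen.head'_iff.mp hv
    rcases Relation.reflTransGen_iff_eq_or_transGen.mp hwa with h | h
    · refine ⟨⟨a, ha⟩, ?_⟩
      change E v a
      exact h.symm ▸ hvw
    · exact ⟨⟨w, h⟩, hvw⟩
  choose f hf using hstep
  refine hno ⟨fun m => (f^[m] ⟨a, ha⟩).1, fun m => ?_⟩
  change E (f^[m] ⟨a, ha⟩).1 (f^[m + 1] ⟨a, ha⟩).1
  rw [Function.iterate_succ_apply']
  exact hf (f^[m] ⟨a, ha⟩)

/-- a nonzero entry of a product of matrices gives a walk through nonzero entries -/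
private theorem exists_walk {R : Type} [CommRing R] {n : ℕ} (Q : Fin n → Fin n → Prop)
    (l : List (Matrix (Fin n) (Fin n) R)) (hl : ∀ M ∈ l, ∀ x y, M x y ≠ 0 → Q x y) :
    ∀ x y, l.prod x y ≠ 0 → ∃ w : ℕ → Fin n, w 0 = x ∧ ∀ i, i < l.length → Q (w i) (w (i + 1)) := by
  induction l with
  | nil =>
    intro x y _
    exact ⟨fun _ => x, rfl, fun i hi => absurd hi (by simp)⟩
  | cons M l ih =>
    intro x y hxy
    rw [List.prod_cons, Matrix.mul_apply] at hxy
    obtain ⟨z, _, hz⟩ := Finset.exists_ne_zero_of_sum_ne_zero hxy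
    obtain ⟨w, hw0, hw⟩ := ih (fun M' hM' => hl M' (List.mem_cons_of_mem _ hM')) z y
      (right_ne_zero_of_mul hz)
    refine ⟨fun i => Nat.casesOn i x w, rfl, ?_⟩
    intro i hi
    cases i with
    | zero =>
      change Q x (w 0)
      rw [hw0]
      exact hl M List.mem_cons_self x z (left_ne_zero_of_mul hz)
    | succ i =>
      change Q (w i) (w (i + 1))
      exact hw i (by simpa using hi)

theorem prod_eq_zero {R : Type} [CommRing R] {n : ℕ} (b : Fin n → ℕ) (E : ℕ → ℕ → Prop)
    (hno : ¬ ∃ c : ℕ → ℕ, ∀ m, E (c m) (c (m + 1))) (l : List (Matrix (Fin n) (Fin n) R))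
    (hl : ∀ M ∈ l, ∀ x y, M x y ≠ 0 → Relation.TransGen E (b y) (b x)) (hn : l.length = n) :
    l.prod = 0 := by
  ext x y
  by_contra hxy
  obtain ⟨w, _, hw⟩ := exists_walk (fun x y => Relation.TransGen E (b y) (b x)) l hl x y hxy
  rw [hn] at hw
  have hchain : ∀ k i, i + (k + 1) ≤ n → Relation.TransGen E (b (w (i + (k + 1)))) (b (w i)) := by
    intro k
    induction k with
    | zero =>
      intro i hi
      exact hw i (by omega)
    | succ k ih =>
      intro i hi
      have h1 := ih i (by omega)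
      have h2 := hw (i + (k + 1)) (by omega)
      exact h2.trans h1
  obtain ⟨i, j, hij, he⟩ := Fintype.exists_ne_map_eq_of_card_lt
    (fun i : Fin (n + 1) => w i) (by simp)
  have key : ∀ i j : Fin (n + 1), i < j → w i = w j → False := by
    intro i j hij he
    have hlt : (i : ℕ) < j := hij
    have h1 := hchain ((j : ℕ) - i - 1) i (by omega)
    have h2 : (i : ℕ) + ((j : ℕ) - i - 1 + 1) = j := by omega
    rw [h2, ← he] at h1
    exact irrefl_of_noWalk E hno _ h1
  rcases lt_or_gt_of_ne hij with h | h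
  · exact key i j h he
  · exact key j i h he.symm

end Pool.Agent.Helper27.TG
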