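import Pool.Agent.Helper27.TG.OffCase
import Pool.Agent.Helper27.TG.DiagCase
import Pool.Agent.Helper27.TG.Prod

/-!
# TG-6: triangularity
-/

set_option autoImplicit false

open Matrix

namespace Pool.Agent.Helper27.TG

/-- a functional on an ideal, non-zero at a given element outside `ker res * A` -/
private theorem defect_exists_phi {R F : Type} [CommRing R] [Field F] (res : R →+* F)
    (hs : Function.Surjective res) (A : Ideal R) (u₀ : R) (hu : u₀ ∈ A)
    (h0 : u₀ ∉ RingHom.ker res * A) :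
    ∃ φ : R → F, (∀ u ∈ A, ∀ v ∈ A, φ (u + v) = φ u + φ v) ∧
      (∀ (r : R), ∀ u ∈ A, φ (r * u) = res r * φ u) ∧ φ u₀ ≠ 0 := by
  classical
  have hmax : (RingHom.ker res).IsMaximal := RingHom.ker_isMaximal_of_surjective res hs
  let _ : Field (R ⧸ RingHom.ker res) := Ideal.Quotient.field (RingHom.ker res)
  let N : Submodule R A := (RingHom.ker res) • (⊤ : Submodule R A)
  have hne : (Submodule.Quotient.mk ⟨u₀, hu⟩ : A ⧸ N) ≠ 0 := by
    intro h
    rw [Submodule.Quotient.mk_eq_zero] at h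
    apply h0
    have h1 : (⟨u₀, hu⟩ : A) ∈ N → u₀ ∈ RingHom.ker res * A := by
      intro h2
      have h3 : A.subtype ⟨u₀, hu⟩ ∈ N.map A.subtype := Submodule.mem_map_of_mem h2
      rw [Submodule.map_smul'', Submodule.map_top, Submodule.range_subtype] at h3
      exact h3
    exact h1 h
  have hdual : ∃ f : Module.Dual (R ⧸ RingHom.ker res) (A ⧸ N),
      f (Submodule.Quotient.mk ⟨u₀, hu⟩) ≠ 0 := by
    by_contra hcon
    push Not at hcon
    exact hne ((Module.forall_dual_apply_eq_zero_iff (R ⧸ RingHom.ker res) _).1 hcon)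
  obtain ⟨f, hf⟩ := hdual
  let e : (R ⧸ RingHom.ker res) ≃+* F := RingHom.quotientKerEquivOfSurjective hs
  refine ⟨fun u => if h : u ∈ A then e (f (Submodule.Quotient.mk ⟨u, h⟩)) else 0, ?_, ?_, ?_⟩
  · intro u hu' v hv'
    simp only [hu', hv', A.add_mem hu' hv', dif_pos]
    rw [← map_add, ← map_add, ← Submodule.Quotient.mk_add]
    rfl
  · intro r u hu'
    simp only [hu', A.mul_mem_left r hu', dif_pos]
    have h1 : (Submodule.Quotient.mk ⟨r * u, A.mul_mem_left r hu'⟩ : A ⧸ N) =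
        (Ideal.Quotient.mk (RingHom.ker res) r) • (Submodule.Quotient.mk ⟨u, hu'⟩ : A ⧸ N) := rfl
    rw [h1, map_smul, smul_eq_mul, map_mul]
    congr 1
  · simp only [hu, dif_pos]
    intro h
    exact hf ((map_eq_zero_iff e e.injective).1 h)

variable {Γ : Type} [Group Γ] {R F : Type} [CommRing R] [IsLocalRing R] [Finite R] [Field F]
  {n : ℕ} {res : R →+* F} {ρ : Γ →* Matrix (Fin n) (Fin n) R}
  {D : Γ →* Matrix (Fin n) (Fin n) F} {b : Fin n → ℕ} {P : Subgroup Γ}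

/-- the generators of the defect ideal -/
private def DefGen (ρ : Γ →* Matrix (Fin n) (Fin n) R) (b : Fin n → ℕ) (P : Subgroup Γ)
    (E : ℕ → ℕ → Prop) (x y : Fin n) (u : R) : Prop :=
  ∃ g ∈ P, (b x ≠ b y ∧ ¬ Relation.TransGen E (b y) (b x) ∧ u = ρ g x y) ∨
    (b x = b y ∧ x ≠ y ∧ u = ρ g x y) ∨ (b x = b y ∧ u = ρ g x x - ρ g y y)

omit [IsLocalRing R] [Finite R] in
private theorem defect_mid (hB : BlockData res ρ D b P) (E : ℕ → ℕ → Prop) (A : Ideal R)
    (hA : ∀ x y u, DefGen ρ b P E x y u → u ∈ A) (a c : ℕ)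
    (hmin : ∀ x y u, DefGen ρ b P E x y u → (b y : ℤ) - b x < (a : ℤ) - c →
      u ∈ RingHom.ker res * A) (hac : ¬ Relation.TransGen E a c) :
    ∀ g ∈ P, ∀ h ∈ P, ∀ x y z, b x = c → b y = a → b z ≠ a → b z ≠ c →
      ρ g x z * ρ h z y ∈ RingHom.ker res * A := by
  intro g hg h hh x y z hx hy hza hzc
  by_cases h1 : Relation.TransGen E a (b z)
  · have h2 : ¬ Relation.TransGen E (b z) c := fun h2 => hac (h1.trans h2)
    have hgen : DefGen ρ b P E x z (ρ g x z) :=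
      ⟨g, hg, Or.inl ⟨fun h3 => hzc (h3.symm.trans hx), by rw [hx]; exact h2, rfl⟩⟩
    by_cases h3 : res (ρ h z y) = 0
    · rw [mul_comm (ρ g x z)]
      exact Ideal.mul_mem_mul ((RingHom.mem_ker).2 h3) (hA _ _ _ hgen)
    · have h4 : ¬ b y < b z := fun h4 => h3 (hB.tri h z y h4)
      refine Ideal.mul_mem_right _ _ (hmin _ _ _ hgen ?_)
      rw [hx]
      have h5 : b z < a := lt_of_le_of_ne (hy ▸ not_lt.1 h4) hza
      have h6 : (b z : ℤ) < a := by exact_mod_cast h5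
      linarith
  · have hgen : DefGen ρ b P E z y (ρ h z y) :=
      ⟨h, hh, Or.inl ⟨fun h3 => hza (h3.trans hy), by rw [hy]; exact h1, rfl⟩⟩
    by_cases h3 : res (ρ g x z) = 0
    · exact Ideal.mul_mem_mul ((RingHom.mem_ker).2 h3) (hA _ _ _ hgen)
    · have h4 : ¬ b z < b x := fun h4 => h3 (hB.tri g x z h4)
      refine Ideal.mul_mem_left _ _ (hmin _ _ _ hgen ?_)
      rw [hy]
      have h5 : c < b z := lt_of_le_of_ne (hx ▸ not_lt.1 h4) (Ne.symm hzc)
      have h6 : (c : ℤ) < b z := by exact_mod_cast h5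
      linarith

private theorem defect_bot [P.Normal] (hB : BlockData res ρ D b P) (Δ : Subgroup Γ)
    (hΔ : ∀ γ : Γ, ∃ g ∈ P, ∃ δ ∈ Δ, γ = g * δ)
    (hdiag : ∀ δ ∈ Δ, ∀ x y, b x ≠ b y → ρ δ x y = 0) (E : ℕ → ℕ → Prop)
    (hE : ∀ a c, KEdge ρ D b P a c → E a c) (hno : ¬ ∃ c : ℕ → ℕ, ∀ m, E (c m) (c (m + 1))) :
    ∀ x y u, DefGen ρ b P E x y u → u = 0 := by
  classical
  let A : Ideal R := Ideal.span {u | ∃ x y, DefGen ρ b P E x y u}
  have hA : ∀ x y u, DefGen ρ b P E x y u → u ∈ A := fun x y u h =>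
    Ideal.subset_span ⟨x, y, h⟩
  have hbot : A = ⊥ := by
    by_contra hne
    have hnak : ¬ A ≤ RingHom.ker res • A := by
      intro hle
      refine hne (Submodule.eq_bot_of_le_smul_of_le_jacobson_bot (RingHom.ker res) A
        (IsNoetherian.noetherian A) hle ?_)
      have hmax : (RingHom.ker res).IsMaximal := RingHom.ker_isMaximal_of_surjective res hB.surj
      rw [IsLocalRing.eq_maximalIdeal hmax]
      exact (IsLocalRing.jacobson_eq_maximalIdeal ⊥ bot_ne_top).ge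
    have hex : ∃ x y u, DefGen ρ b P E x y u ∧ u ∉ RingHom.ker res * A := by
      by_contra hcon
      push Not at hcon
      apply hnak
      change Ideal.span _ ≤ _
      rw [Ideal.span_le]
      rintro u ⟨x, y, h⟩
      exact hcon x y u h
    obtain ⟨x₁, y₁, u₁, h₁, h₁'⟩ := hex
    obtain ⟨q, hq, hqmin⟩ := Finset.exists_min_image
      (Finset.univ.filter fun q : Fin n × Fin n =>
        ∃ u, DefGen ρ b P E q.1 q.2 u ∧ u ∉ RingHom.ker res * A)
      (fun q => (b q.2 : ℤ) - b q.1)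
      ⟨(x₁, y₁), Finset.mem_filter.2 ⟨Finset.mem_univ _, u₁, h₁, h₁'⟩⟩
    obtain ⟨u₀, hgen₀, hu₀⟩ := (Finset.mem_filter.1 hq).2
    have hmin : ∀ x y u, DefGen ρ b P E x y u → (b y : ℤ) - b x < (b q.2 : ℤ) - b q.1 →
        u ∈ RingHom.ker res * A := by
      intro x y u hu hlt
      by_contra hcon
      have h := hqmin (x, y) (Finset.mem_filter.2 ⟨Finset.mem_univ _, u, hu, hcon⟩)
      exact absurd hlt (not_lt.2 h)
    obtain ⟨φ, hφ, hφ', hφ0⟩ := defect_exists_phi res hB.surj A u₀ (hA _ _ _ hgen₀) hu₀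
    by_cases hac : b q.2 = b q.1
    · have hirr : ¬ Relation.TransGen E (b q.2) (b q.1) := by
        rw [hac]
        exact irrefl_of_noWalk E hno _
      have hmid := defect_mid hB E A hA (b q.2) (b q.1) hmin hirr
      have hedge : KEdge ρ D b P (b q.2) (b q.2) := by
        refine kEdge_diag hB Δ hΔ hdiag A φ hφ hφ' ?_ ?_ ?_ ?_
        · intro g hg x y hx hy hxy
          exact hA x y _ ⟨g, hg, Or.inr (Or.inl ⟨hx.trans hy.symm, hxy, rfl⟩)⟩
        · intro g hg x y hx hy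
          exact hA x y _ ⟨g, hg, Or.inr (Or.inr ⟨hx.trans hy.symm, rfl⟩)⟩
        · intro g hg h hh x y z hx hy hz
          exact hmid g hg h hh x y z (hx.trans hac) hy hz (fun h' => hz (h'.trans hac.symm))
        · obtain ⟨g, hg, h1 | h1 | h1⟩ := hgen₀
          · exact absurd hac.symm h1.1
          · exact Or.inl ⟨g, hg, q.1, q.2, hac.symm, rfl, h1.2.1, h1.2.2 ▸ hφ0⟩
          · exact Or.inr ⟨g, hg, q.1, q.2, hac.symm, rfl, h1.2 ▸ hφ0⟩
      exact irrefl_of_noWalk E hno _ (Relation.TransGen.single (hE _ _ hedge))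
    · obtain ⟨g, hg, h1 | h1 | h1⟩ := hgen₀
      · have hmid := defect_mid hB E A hA (b q.2) (b q.1) hmin h1.2.1
        have hedge : KEdge ρ D b P (b q.2) (b q.1) := by
          refine kEdge_off hB Δ hΔ hdiag A φ hφ hφ' hac ?_ hmid
            ⟨g, hg, q.1, q.2, rfl, rfl, h1.2.2 ▸ hφ0⟩
          intro g' hg' x y hx hy
          refine hA x y _ ⟨g', hg', Or.inl ⟨?_, ?_, rfl⟩⟩
          · rw [hx, hy]
            exact h1.1
          · rw [hx, hy]
            exact h1.2.1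
        exact h1.2.1 (Relation.TransGen.single (hE _ _ hedge))
      · exact hac h1.1.symm
      · exact hac h1.1.symm
  intro x y u hu
  have h := hA x y u hu
  rw [hbot] at h
  exact h

theorem defect [P.Normal] (hB : BlockData res ρ D b P) (Δ : Subgroup Γ)
    (hΔ : ∀ γ : Γ, ∃ g ∈ P, ∃ δ ∈ Δ, γ = g * δ)
    (hdiag : ∀ δ ∈ Δ, ∀ x y, b x ≠ b y → ρ δ x y = 0) (E : ℕ → ℕ → Prop)
    (hE : ∀ a c, KEdge ρ D b P a c → E a c) (hno : ¬ ∃ c : ℕ → ℕ, ∀ m, E (c m) (c (m + 1))) :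
    (∀ g ∈ P, ∀ x y, b x ≠ b y → ρ g x y ≠ 0 → Relation.TransGen E (b y) (b x)) ∧
    (∀ g ∈ P, ∀ x y, b x = b y → x ≠ y → ρ g x y = 0) ∧
    (∀ g ∈ P, ∀ x y, b x = b y → ρ g x x = ρ g y y) := by
  have h := defect_bot hB Δ hΔ hdiag E hE hno
  refine ⟨?_, ?_, ?_⟩
  · intro g hg x y hxy hne
    by_contra hcon
    exact hne (h x y _ ⟨g, hg, Or.inl ⟨hxy, hcon, rfl⟩⟩)
  · intro g hg x y hxy hne
    exact h x y _ ⟨g, hg, Or.inr (Or.inl ⟨hxy, hne, rfl⟩)⟩
  · intro g hg x y hxy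
    exact sub_eq_zero.1 (h x y _ ⟨g, hg, Or.inr (Or.inr ⟨hxy, rfl⟩)⟩)

end Pool.Agent.Helper27.TG
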