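import Pool.Agent.Helper27.TG.Compl
import Pool.Agent.Helper27.TG.Conj
import Pool.Agent.Helper27.TG.Defect
import Pool.Agent.Helper27.TG.Prod

/-!
# TG-8: the algebraic theorem at finite level
-/

set_option autoImplicit false
set_option linter.unusedSectionVars false

open Matrix

namespace Pool.Agent.Helper27.TG

variable {Γ : Type} [Group Γ] {R F : Type} [CommRing R] [IsLocalRing R] [Finite R] [Field F]
  {n : ℕ} {res : R →+* F} {ρ : Γ →* Matrix (Fin n) (Fin n) R}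
  {D : Γ →* Matrix (Fin n) (Fin n) F} {b : Fin n → ℕ} {P : Subgroup Γ}

/-- conjugation by a matrix -/
private def conjHom (ρ : Γ →* Matrix (Fin n) (Fin n) R) {X Y : Matrix (Fin n) (Fin n) R}
    (hXY : X * Y = 1) (hYX : Y * X = 1) : Γ →* Matrix (Fin n) (Fin n) R where
  toFun g := Y * ρ g * X
  map_one' := by rw [map_one, mul_one, hYX]
  map_mul' g h := by
    rw [map_mul]
    calc Y * (ρ g * ρ h) * X = Y * ρ g * 1 * ρ h * X := by
          simp only [mul_one, Matrix.mul_assoc]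
      _ = Y * ρ g * (X * Y) * ρ h * X := by rw [hXY]
      _ = Y * ρ g * X * (Y * ρ h * X) := by simp only [Matrix.mul_assoc]

private lemma conjHom_apply (ρ : Γ →* Matrix (Fin n) (Fin n) R) {X Y : Matrix (Fin n) (Fin n) R}
    (hXY : X * Y = 1) (hYX : Y * X = 1) (g : Γ) : conjHom ρ hXY hYX g = Y * ρ g * X := rfl

private lemma conjHom_mul (ρ : Γ →* Matrix (Fin n) (Fin n) R) {X Y : Matrix (Fin n) (Fin n) R}
    (hXY : X * Y = 1) (hYX : Y * X = 1) (g : Γ) : X * conjHom ρ hXY hYX g = ρ g * X := by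
  rw [conjHom_apply, ← Matrix.mul_assoc, ← Matrix.mul_assoc, hXY, Matrix.one_mul]

private lemma conjHom_eq_one (ρ : Γ →* Matrix (Fin n) (Fin n) R) {X Y : Matrix (Fin n) (Fin n) R}
    (hXY : X * Y = 1) (hYX : Y * X = 1) (g : Γ) : conjHom ρ hXY hYX g = 1 ↔ ρ g = 1 := by
  constructor
  · intro h
    have h1 := conjHom_mul ρ hXY hYX g
    rw [h, Matrix.mul_one] at h1
    calc ρ g = ρ g * (X * Y) := by rw [hXY, Matrix.mul_one]
      _ = X * Y := by rw [← Matrix.mul_assoc, ← h1]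
      _ = 1 := hXY
  · intro h
    rw [conjHom_apply, h, Matrix.mul_one, hYX]

/-- the diagonal entries are multiplicative on `P` -/
private lemma diag_mul {ρ' : Γ →* Matrix (Fin n) (Fin n) R} (E : ℕ → ℕ → Prop)
    (hno : ¬ ∃ c : ℕ → ℕ, ∀ m, E (c m) (c (m + 1)))
    (d1 : ∀ g ∈ P, ∀ x y, b x ≠ b y → ρ' g x y ≠ 0 → Relation.TransGen E (b y) (b x))
    (d2 : ∀ g ∈ P, ∀ x y, b x = b y → x ≠ y → ρ' g x y = 0) {g h : Γ} (hg : g ∈ P) (hh : h ∈ P)
    (x : Fin n) : ρ' (g * h) x x = ρ' g x x * ρ' h x x := by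
  rw [map_mul, Matrix.mul_apply]
  refine Finset.sum_eq_single x (fun z _ hz => ?_) (fun h => absurd (Finset.mem_univ x) h)
  by_cases hb : b x = b z
  · rw [d2 g hg x z hb hz.symm, zero_mul]
  · by_contra hne
    have h1 : ρ' g x z ≠ 0 := left_ne_zero_of_mul hne
    have h2 : ρ' h z x ≠ 0 := right_ne_zero_of_mul hne
    have t1 := d1 g hg x z hb h1
    have t2 := d1 h hh z x (fun h => hb h.symm) h2
    exact irrefl_of_noWalk E hno _ (t2.trans t1)

/-- the elements of `P` with trivial diagonal entries -/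
private def P1 (ρ' : Γ →* Matrix (Fin n) (Fin n) R) (P : Subgroup Γ)
    (hm : ∀ g ∈ P, ∀ h ∈ P, ∀ x, ρ' (g * h) x x = ρ' g x x * ρ' h x x) : Subgroup Γ where
  carrier := {g | g ∈ P ∧ ∀ x, ρ' g x x = 1}
  one_mem' := ⟨P.one_mem, fun x => by rw [map_one, Matrix.one_apply_eq]⟩
  mul_mem' := fun {g h} hg hh => ⟨P.mul_mem hg.1 hh.1, fun x => by
    rw [hm g hg.1 h hh.1 x, hg.2 x, hh.2 x, one_mul]⟩
  inv_mem' := fun {g} hg => ⟨P.inv_mem hg.1, fun x => by
    have h1 := hm g⁻¹ (P.inv_mem hg.1) g hg.1 x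
    rw [inv_mul_cancel, map_one, Matrix.one_apply_eq, hg.2 x, mul_one] at h1
    exact h1.symm⟩

private lemma mem_P1 {ρ' : Γ →* Matrix (Fin n) (Fin n) R}
    {hm : ∀ g ∈ P, ∀ h ∈ P, ∀ x, ρ' (g * h) x x = ρ' g x x * ρ' h x x} {g : Γ} :
    g ∈ P1 ρ' P hm ↔ g ∈ P ∧ ∀ x, ρ' g x x = 1 := Iff.rfl

theorem alg [P.Normal] (hB : BlockData res ρ D b P) (hker : ρ.ker ≤ P) (p : ℕ)
    [Fact p.Prime] [CharP F p] (E : ℕ → ℕ → Prop) (hE : ∀ a c, KEdge ρ D b P a c → E a c)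
    (hno : ¬ ∃ c : ℕ → ℕ, ∀ m, E (c m) (c (m + 1))) :
    ∃ P₁ : Subgroup Γ, P₁.Normal ∧ P₁ ≤ P ∧ ⁅P, P⁆ ≤ P₁ ∧ ρ.ker ≤ P₁ ∧
      ∀ l : List Γ, (∀ g ∈ l, g ∈ P₁) → l.length = n → (l.map fun g => ρ g - 1).prod = 0 := by
  obtain ⟨Δ, hkΔ, hΔ, hcard⟩ := exists_compl hB hker p
  obtain ⟨X, Y, hXY, hYX, h1, h2, h3⟩ := exists_conj hB Δ hkΔ hcard
  set ρ' := conjHom ρ hXY hYX with hρ'
  have hB' : BlockData res ρ' D b P :=
    blockData_conj hB hXY hYX h1 h2 ρ' (fun g => conjHom_apply ρ hXY hYX g)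
  have hone : ∀ g, ρ' g = 1 ↔ ρ g = 1 := conjHom_eq_one ρ hXY hYX
  have hdiag : ∀ δ ∈ Δ, ∀ x y, b x ≠ b y → ρ' δ x y = 0 := h3
  have hK : ∀ a c, KEdge ρ' D b P a c → E a c := by
    rintro a c ⟨κ, k1, k2, k3, k4, k5⟩
    exact hE a c ⟨κ, k1, k2, k3, fun g hg h => k4 g hg ((hone g).2 h), k5⟩
  obtain ⟨d1, d2, -⟩ := defect hB' Δ hΔ hdiag E hK hno
  have hm : ∀ g ∈ P, ∀ h ∈ P, ∀ x, ρ' (g * h) x x = ρ' g x x * ρ' h x x :=
    fun g hg h hh x => diag_mul E hno d1 d2 hg hh x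
  have hinv : ∀ g ∈ P, ∀ x, ρ' g x x * ρ' g⁻¹ x x = 1 := by
    intro g hg x
    rw [← hm g hg g⁻¹ (P.inv_mem hg) x, mul_inv_cancel, map_one, Matrix.one_apply_eq]
  refine ⟨P1 ρ' P hm, ⟨?_⟩, fun g hg => hg.1, ?_, ?_, ?_⟩
  · intro g hg h
    obtain ⟨hgP, hg1⟩ := mem_P1.1 hg
    obtain ⟨g1, hg1P, δ, hδ, rfl⟩ := hΔ h
    have hu : δ * g * δ⁻¹ ∈ P := Subgroup.Normal.conj_mem inferInstance g hgP δ
    have hδ' : δ⁻¹ ∈ Δ := Δ.inv_mem hδ
    have hu1 : ∀ x, ρ' (δ * g * δ⁻¹) x x = 1 := by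
      intro x
      rw [map_mul, map_mul, Matrix.mul_apply]
      have e : ∀ w, (ρ' δ * ρ' g) x w * ρ' δ⁻¹ w x = ρ' δ x w * ρ' δ⁻¹ w x := by
        intro w
        by_cases hw : b w = b x
        · congr 1
          rw [Matrix.mul_apply]
          rw [Finset.sum_eq_single w]
          · rw [hg1 w, mul_one]
          · intro z _ hz
            by_cases hb : b x = b z
            · rw [d2 g hgP z w (hb.symm.trans hw.symm) hz, mul_zero]
            · rw [hdiag δ hδ x z hb, zero_mul]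
          · intro hh
            exact absurd (Finset.mem_univ w) hh
        · rw [hdiag δ⁻¹ hδ' w x hw, mul_zero, mul_zero]
      rw [Finset.sum_congr rfl (fun w _ => e w), ← Matrix.mul_apply, ← map_mul, mul_inv_cancel,
        map_one, Matrix.one_apply_eq]
    have e2 : g1 * δ * g * (g1 * δ)⁻¹ = g1 * (δ * g * δ⁻¹) * g1⁻¹ := by group
    rw [e2, mem_P1]
    refine ⟨Subgroup.Normal.conj_mem inferInstance _ hu g1, fun x => ?_⟩
    rw [hm _ (P.mul_mem hg1P hu) _ (P.inv_mem hg1P), hm _ hg1P _ hu, hu1 x, mul_one]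
    exact hinv g1 hg1P x
  · rw [Subgroup.commutator_le]
    intro g hg h hh
    rw [mem_P1]
    have hgi := P.inv_mem hg
    have hhi := P.inv_mem hh
    refine ⟨?_, fun x => ?_⟩
    · rw [commutatorElement_def]
      exact P.mul_mem (P.mul_mem (P.mul_mem hg hh) hgi) hhi
    · rw [commutatorElement_def, hm _ (P.mul_mem (P.mul_mem hg hh) hgi) _ hhi,
        hm _ (P.mul_mem hg hh) _ hgi, hm _ hg _ hh]
      calc ρ' g x x * ρ' h x x * ρ' g⁻¹ x x * ρ' h⁻¹ x x
          = (ρ' g x x * ρ' g⁻¹ x x) * (ρ' h x x * ρ' h⁻¹ x x) := by ring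
        _ = 1 := by rw [hinv g hg x, hinv h hh x, one_mul]
  · intro g hg
    rw [mem_P1]
    refine ⟨hker hg, fun x => ?_⟩
    rw [(hone g).2 ((MonoidHom.mem_ker).1 hg), Matrix.one_apply_eq]
  · intro l hl hn
    have hz : (l.map fun g => ρ' g - 1).prod = 0 := by
      refine prod_eq_zero b E hno _ ?_ (by rw [List.length_map, hn])
      intro M hM x y hxy
      rw [List.mem_map] at hM
      obtain ⟨g, hgl, rfl⟩ := hM
      obtain ⟨hgP, hg1⟩ := mem_P1.1 (hl g hgl)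
      rw [Matrix.sub_apply] at hxy
      by_cases hb : b x = b y
      · exfalso
        apply hxy
        by_cases hx : x = y
        · subst hx
          rw [hg1 x, Matrix.one_apply_eq, sub_self]
        · rw [d2 g hgP x y hb hx, Matrix.one_apply_ne hx, sub_self]
      · refine d1 g hgP x y hb ?_
        intro h0
        apply hxy
        have hx : x ≠ y := fun h => hb (by rw [h])
        rw [h0, Matrix.one_apply_ne hx, sub_self]
    have hcomm : ∀ l : List Γ, (l.map fun g => ρ g - 1).prod * X =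
        X * (l.map fun g => ρ' g - 1).prod := by
      intro l
      induction l with
      | nil => simp
      | cons g l ih =>
        rw [List.map_cons, List.prod_cons, List.map_cons, List.prod_cons, Matrix.mul_assoc, ih,
          ← Matrix.mul_assoc, ← Matrix.mul_assoc]
        congr 1
        rw [Matrix.sub_mul, Matrix.mul_sub, Matrix.one_mul, Matrix.mul_one, hρ',
          conjHom_mul ρ hXY hYX g]
    calc (l.map fun g => ρ g - 1).prod
        = (l.map fun g => ρ g - 1).prod * X * Y := by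
          rw [Matrix.mul_assoc, hXY, Matrix.mul_one]
      _ = 0 := by rw [hcomm l, hz, Matrix.mul_zero, Matrix.zero_mul]

end Pool.Agent.Helper27.TG
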