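import Pool.Agent.Helper27.TG.Defs

/-!
# TG-4: an invariant functional on the endomorphisms of a block
-/

set_option autoImplicit false

open Matrix

namespace Pool.Agent.Helper27.TG

/-- A matrix coefficient of the conjugate. -/
private def coef {Γ F : Type} [Group Γ] [Field F] {n : ℕ}
    (D : Γ →* Matrix (Fin n) (Fin n) F) (x0 : Fin n) (γ : Γ) :
    Matrix (Fin n) (Fin n) F →ₗ[F] F where
  toFun M := (D γ * M * D γ⁻¹) x0 x0
  map_add' M N := by rw [Matrix.mul_add, Matrix.add_mul, Matrix.add_apply]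
  map_smul' c M := by
    rw [Matrix.mul_smul, Matrix.smul_mul, Matrix.smul_apply, RingHom.id_apply]

private theorem coef_apply {Γ F : Type} [Group Γ] [Field F] {n : ℕ}
    (D : Γ →* Matrix (Fin n) (Fin n) F) (x0 : Fin n) (γ : Γ) (M : Matrix (Fin n) (Fin n) F) :
    coef D x0 γ M = (D γ * M * D γ⁻¹) x0 x0 := rfl

private theorem coef_mul {Γ F : Type} [Group Γ] [Field F] {n : ℕ}
    (D : Γ →* Matrix (Fin n) (Fin n) F) (x0 : Fin n) (γ g : Γ) (M : Matrix (Fin n) (Fin n) F) :
    coef D x0 γ (D g * M * D g⁻¹) = coef D x0 (γ * g) M := by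
  rw [coef_apply, coef_apply, _root_.mul_inv_rev, map_mul, map_mul]
  simp only [Matrix.mul_assoc]

/-- averaging a matrix coefficient -/
theorem exists_functional {Γ F : Type} [Group Γ] [Field F] {n : ℕ}
    (D : Γ →* Matrix (Fin n) (Fin n) F) (b : Fin n → ℕ) (P : Subgroup Γ) [P.Normal]
    (htriv : ∀ g ∈ P, D g = 1) (hindex : (P.index : F) ≠ 0)
    (hoff : ∀ g x y, b x ≠ b y → D g x y = 0) (x0 : Fin n) :
    ∃ f : Matrix (Fin n) (Fin n) F →ₗ[F] F, f (blk b (b x0)) = 1 ∧
      ∀ g M, f (D g * M * D g⁻¹) = f M := by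
  classical
  have hidx : P.index ≠ 0 := by
    intro h0
    rw [h0] at hindex
    exact hindex Nat.cast_zero
  have : P.FiniteIndex := ⟨hidx⟩
  have : Finite (Γ ⧸ P) := inferInstance
  let _ : Fintype (Γ ⧸ P) := Fintype.ofFinite _
  have hout : ∀ γ : Γ, coef D x0 (Quotient.out (γ : Γ ⧸ P)) = coef D x0 γ := by
    intro γ
    obtain ⟨p, hp⟩ := QuotientGroup.mk_out_eq_mul P γ
    have e1 : D (p : Γ) = 1 := htriv p p.2
    have e2 : D (p : Γ)⁻¹ = 1 := htriv _ (P.inv_mem p.2)
    refine LinearMap.ext fun M => ?_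
    rw [hp, coef_apply, coef_apply, _root_.mul_inv_rev, map_mul, map_mul, e1, e2, Matrix.mul_one,
      Matrix.one_mul]
  refine ⟨((P.index : F))⁻¹ • ∑ q : Γ ⧸ P, coef D x0 (Quotient.out q), ?_, ?_⟩
  · have h1 : ∀ q : Γ ⧸ P, coef D x0 (Quotient.out q) (blk b (b x0)) = 1 := by
      intro q
      rw [coef_apply]
      have hcomm : D (Quotient.out q) * blk b (b x0) = blk b (b x0) * D (Quotient.out q) := by
        ext x y
        unfold blk
        rw [Matrix.mul_diagonal, Matrix.diagonal_mul]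
        by_cases hxy : b x = b y
        · rw [hxy, mul_comm]
        · rw [hoff _ x y hxy, zero_mul, mul_zero]
      rw [hcomm, Matrix.mul_assoc, ← map_mul, mul_inv_cancel, map_one, Matrix.mul_one]
      unfold blk
      rw [Matrix.diagonal_apply_eq, if_pos rfl]
    rw [LinearMap.smul_apply, LinearMap.sum_apply, Finset.sum_congr rfl fun q _ => h1 q,
      Finset.sum_const, Finset.card_univ, ← Nat.card_eq_fintype_card, nsmul_eq_mul, mul_one,
      smul_eq_mul]
    have : Nat.card (Γ ⧸ P) = P.index := rfl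
    rw [this, inv_mul_cancel₀ hindex]
  · intro g M
    rw [LinearMap.smul_apply, LinearMap.smul_apply, LinearMap.sum_apply, LinearMap.sum_apply]
    congr 1
    refine Fintype.sum_equiv (Equiv.mulRight (g : Γ ⧸ P)) _ _ fun q => ?_
    obtain ⟨γ, rfl⟩ := QuotientGroup.mk_surjective q
    have e : (Equiv.mulRight (g : Γ ⧸ P)) (γ : Γ ⧸ P) = ((γ * g : Γ) : Γ ⧸ P) := rfl
    rw [e, hout, hout, coef_mul]

end Pool.Agent.Helper27.TG
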