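import Pool.Agent.Helper27.TG.Defs
import Pool.Agent.Helper27.TE.Unip

/-!
# TG-1: a complement (Schur-Zassenhaus)
-/

set_option autoImplicit false

open Matrix

namespace Pool.Agent.Helper27.TG

variable {Γ : Type} [Group Γ] {R F : Type} [CommRing R] [IsLocalRing R] [Finite R] [Field F]
  {n : ℕ} {res : R →+* F} {ρ : Γ →* Matrix (Fin n) (Fin n) R}
  {D : Γ →* Matrix (Fin n) (Fin n) F} {b : Fin n → ℕ} {P : Subgroup Γ}

theorem exists_compl [P.Normal] (hB : BlockData res ρ D b P) (hker : ρ.ker ≤ P) (p : ℕ)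
    [Fact p.Prime] [CharP F p] : ∃ Δ : Subgroup Γ, ρ.ker ≤ Δ ∧
      (∀ γ : Γ, ∃ g ∈ P, ∃ δ ∈ Δ, γ = g * δ) ∧ ((ρ.ker.relIndex Δ : ℕ) : F) ≠ 0 := by
  have hp : p.Prime := Fact.out
  -- the finite quotient
  have hfin : Finite (Γ ⧸ ρ.ker) := by
    refine Finite.of_injective (fun q : Γ ⧸ ρ.ker => Quotient.liftOn' q (fun g => ρ g) ?_) ?_
    · intro x y hxy
      rw [QuotientGroup.leftRel_apply, MonoidHom.mem_ker] at hxy
      calc ρ x = ρ x * ρ (x⁻¹ * y) := by rw [hxy, mul_one]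
        _ = ρ y := by rw [← map_mul, mul_inv_cancel_left]
    · intro x y
      refine Quotient.inductionOn₂' x y fun g h hgh => ?_
      have hgh' : ρ g = ρ h := hgh
      refine Quotient.sound' ?_
      rw [QuotientGroup.leftRel_apply, MonoidHom.mem_ker, map_mul, ← hgh', ← map_mul,
        inv_mul_cancel, map_one]
  set π : Γ →* Γ ⧸ ρ.ker := QuotientGroup.mk' ρ.ker with hπ
  have hsurj : Function.Surjective π := QuotientGroup.mk'_surjective ρ.ker
  have hkerπ : π.ker = ρ.ker := QuotientGroup.ker_mk' ρ.ker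
  have hN : (P.map π).Normal := Subgroup.Normal.map inferInstance π hsurj
  have hpg : IsPGroup p (P.map π) := by
    rintro ⟨x, g, hg, rfl⟩
    obtain ⟨k, hk⟩ := Pool.Agent.Helper27.TE.exists_pow_eq_one hB p hg
    refine ⟨k, ?_⟩
    ext
    simp only [Subgroup.coe_pow, Subgroup.coe_one]
    rw [← map_pow]
    have h1 : g ^ p ^ k ∈ π.ker := by
      rw [hkerπ, MonoidHom.mem_ker, map_pow]
      exact hk
    exact h1
  obtain ⟨k, hk⟩ := IsPGroup.iff_card.1 hpg
  have hidx : (P.map π).index = P.index := Subgroup.index_map_eq P hsurj (by rw [hkerπ]; exact hker)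
  have hcop : Nat.Coprime (Nat.card (P.map π)) (P.map π).index := by
    rw [hk, hidx]
    refine Nat.Coprime.pow_left k ((Nat.Prime.coprime_iff_not_dvd hp).2 fun hdvd => ?_)
    exact hB.index ((CharP.cast_eq_zero_iff F p P.index).2 hdvd)
  obtain ⟨H, hH⟩ := Subgroup.exists_right_complement'_of_coprime hcop
  refine ⟨H.comap π, ?_, ?_, ?_⟩
  · intro g hg
    rw [Subgroup.mem_comap]
    have h1 : g ∈ π.ker := by rwa [hkerπ]
    rw [MonoidHom.mem_ker.1 h1]
    exact H.one_mem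
  · intro γ
    obtain ⟨⟨⟨x, hx⟩, ⟨y, hy⟩⟩, e⟩ := hH.2 (π γ)
    obtain ⟨g, hg, rfl⟩ := hx
    refine ⟨g, hg, g⁻¹ * γ, ?_, by rw [mul_inv_cancel_left]⟩
    rw [Subgroup.mem_comap, map_mul, map_inv]
    have e' : π g * y = π γ := e
    rw [← e', inv_mul_cancel_left]
    exact hy
  · have h1 : ρ.ker.relIndex (H.comap π) = Nat.card H := by
      have h2 : ρ.ker.relIndex (H.comap π) =
          ((⊥ : Subgroup (Γ ⧸ ρ.ker)).comap π).relIndex (H.comap π) := by
        rw [MonoidHom.comap_bot, hkerπ]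
      rw [h2, Subgroup.relIndex_comap, Subgroup.map_comap_eq_self_of_surjective hsurj,
        Subgroup.relIndex_bot_left]
    rw [h1, ← hH.symm.index_eq_card, hidx]
    exact hB.index

end Pool.Agent.Helper27.TG
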