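import Pool.Agent.Helper27.TE.Defs

/-!
# Tame representations with acyclic residual quiver, scalar loops allowed: definitions
-/

set_option autoImplicit false

open NumberField Matrix

open scoped Pointwise

namespace Pool.Agent.Helper27.TG

export Pool.Agent.Helper27.TE (BlockData)

/-- the identity matrix of the block `a` -/
def blk {F : Type} [Field F] {n : ℕ} (b : Fin n → ℕ) (a : ℕ) : Matrix (Fin n) (Fin n) F :=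
  Matrix.diagonal fun x => if b x = a then 1 else 0

section alg

variable {Γ : Type} [Group Γ] {R F : Type} [CommRing R] [Field F] {n : ℕ}

/-- An equivariant homomorphism from `P` to the homomorphisms from the block `a` to the block `c`,
trivial on the elements of `P` which act trivially, and not scalar. -/
def KEdge (ρ : Γ →* Matrix (Fin n) (Fin n) R) (D : Γ →* Matrix (Fin n) (Fin n) F)
    (b : Fin n → ℕ) (P : Subgroup Γ) (a c : ℕ) : Prop :=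
  ∃ κ : Γ → Matrix (Fin n) (Fin n) F,
    (∀ g ∈ P, ∀ x y, κ g x y ≠ 0 → b y = a ∧ b x = c) ∧
    (∀ g ∈ P, ∀ h ∈ P, κ (g * h) = κ g + κ h) ∧
    (∀ h, ∀ g ∈ P, κ (h * g * h⁻¹) = D h * κ g * D h⁻¹) ∧
    (∀ g ∈ P, ρ g = 1 → κ g = 0) ∧
    ∃ g ∈ P, ∀ s : F, κ g ≠ s • blk b a

end alg

section arith

variable {K Ω : Type} [Field K] [NumberField K] [Field Ω] [Algebra K Ω] {F : Type} [Field F]
  {n : ℕ}

/-- A continuous equivariant homomorphism `κ` from the kernel of `D` to the homomorphisms from the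
block `a` to the block `c`, which is not scalar. -/
def Coc (D : (Ω ≃ₐ[K] Ω) →* Matrix (Fin n) (Fin n) F) (b : Fin n → ℕ) (a c : ℕ)
    (κ : (Ω ≃ₐ[K] Ω) → Matrix (Fin n) (Fin n) F) : Prop :=
  (∀ g, D g = 1 → ∀ x y, κ g x y ≠ 0 → b y = a ∧ b x = c) ∧
  (∀ g h, D g = 1 → D h = 1 → κ (g * h) = κ g + κ h) ∧
  (∀ g h, D g = 1 → κ (h * g * h⁻¹) = D h * κ g * D h⁻¹) ∧
  (∃ U : Subgroup (Ω ≃ₐ[K] Ω), IsOpen (U : Set (Ω ≃ₐ[K] Ω)) ∧ ∀ g ∈ U, D g = 1 → κ g = 0) ∧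
  ∃ g, D g = 1 ∧ ∀ s : F, κ g ≠ s • blk b a

/-- tame arrow -/
def ExtEdge (S : Set (Ideal (𝓞 K))) (p : ℕ) (D : (Ω ≃ₐ[K] Ω) →* Matrix (Fin n) (Fin n) F)
    (b : Fin n → ℕ) (a c : ℕ) : Prop :=
  ∃ κ, Coc D b a c κ ∧ ∀ Q : Ideal (𝓞 Ω), Q.IsMaximal →
    (Q.comap (algebraMap (𝓞 K) (𝓞 Ω)) ∉ S ∨ (p : 𝓞 Ω) ∈ Q) →
    ∀ g ∈ Q.inertia (Ω ≃ₐ[K] Ω), D g = 1 → κ g = 0

/-- unramified arrow -/
def ClsEdge (D : (Ω ≃ₐ[K] Ω) →* Matrix (Fin n) (Fin n) F) (b : Fin n → ℕ) (a c : ℕ) : Prop :=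
  ∃ κ, Coc D b a c κ ∧ ∀ Q : Ideal (𝓞 Ω), Q.IsMaximal →
    ∀ g ∈ Q.inertia (Ω ≃ₐ[K] Ω), D g = 1 → κ g = 0

/-- local arrow -/
def LocEdge (S : Set (Ideal (𝓞 K))) (p : ℕ) (D : (Ω ≃ₐ[K] Ω) →* Matrix (Fin n) (Fin n) F)
    (b : Fin n → ℕ) (a c : ℕ) : Prop :=
  ∃ Q : Ideal (𝓞 Ω), Q.IsMaximal ∧ Q.comap (algebraMap (𝓞 K) (𝓞 Ω)) ∈ S ∧ (p : 𝓞 Ω) ∉ Q ∧
    ∃ T : Matrix (Fin n) (Fin n) F, (∀ s : F, T ≠ s • blk b a) ∧
      (∀ x y, T x y ≠ 0 → b y = a ∧ b x = c) ∧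
      ∀ (g : Ω ≃ₐ[K] Ω) (N : ℕ), (∀ x : 𝓞 Ω, g • x - x ^ N ∈ Q) → D g * T = N • (T * D g)

end arith

end Pool.Agent.Helper27.TG
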