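import Pool.Agent.Helper27.TG.Defs

/-!
# TG-3: arrows between different blocks
-/

set_option autoImplicit false

open Matrix

namespace Pool.Agent.Helper27.TG

variable {Γ : Type} [Group Γ] {R F : Type} [CommRing R] [Field F]
  {n : ℕ} {res : R →+* F} {ρ : Γ →* Matrix (Fin n) (Fin n) R}
  {D : Γ →* Matrix (Fin n) (Fin n) F} {b : Fin n → ℕ} {P : Subgroup Γ}

private lemma off_phi_zero (I : Ideal R) (φ : R → F)
    (hφ : ∀ u ∈ I, ∀ v ∈ I, φ (u + v) = φ u + φ v) : φ 0 = 0 := by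
  have h := hφ 0 I.zero_mem 0 I.zero_mem
  rw [add_zero] at h
  exact left_eq_add.mp h

private lemma off_phi_ker (I : Ideal R) (φ : R → F)
    (hφ : ∀ u ∈ I, ∀ v ∈ I, φ (u + v) = φ u + φ v)
    (hφ' : ∀ (r : R), ∀ u ∈ I, φ (r * u) = res r * φ u) {w : R}
    (hw : w ∈ RingHom.ker res * I) : w ∈ I ∧ φ w = 0 := by
  refine Submodule.mul_induction_on hw ?_ ?_
  · intro r hr u hu
    refine ⟨I.mul_mem_left r hu, ?_⟩
    rw [hφ' r u hu, (RingHom.mem_ker).mp hr, zero_mul]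
  · intro u v hu hv
    refine ⟨I.add_mem hu.1 hv.1, ?_⟩
    rw [hφ u hu.1 v hv.1, hu.2, hv.2, add_zero]

private lemma off_phi_sum (I : Ideal R) (φ : R → F)
    (hφ : ∀ u ∈ I, ∀ v ∈ I, φ (u + v) = φ u + φ v) {ι : Type} (s : Finset ι) (f : ι → R)
    (hf : ∀ i ∈ s, f i ∈ I) : φ (∑ i ∈ s, f i) = ∑ i ∈ s, φ (f i) := by
  classical
  induction s using Finset.induction_on with
  | empty => simpa using off_phi_zero I φ hφ
  | insert i s hi ih =>
    rw [Finset.sum_insert hi, Finset.sum_insert hi,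
      hφ _ (hf i (Finset.mem_insert_self i s)) _
        (I.sum_mem fun j hj => hf j (Finset.mem_insert_of_mem hj)),
      ih fun j hj => hf j (Finset.mem_insert_of_mem hj)]

/-- the candidate homomorphism -/
private def offKap (ρ : Γ →* Matrix (Fin n) (Fin n) R) (b : Fin n → ℕ) (φ : R → F) (a c : ℕ)
    (g : Γ) : Matrix (Fin n) (Fin n) F :=
  Matrix.of fun x y => if b x = c ∧ b y = a then φ (ρ g x y) else 0

private lemma off_kap_of {φ : R → F} {a c : ℕ} (g : Γ) {x y : Fin n} (hx : b x = c)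
    (hy : b y = a) : offKap ρ b φ a c g x y = φ (ρ g x y) := by
  simp [offKap, hx, hy]

private lemma off_kap_not {φ : R → F} {a c : ℕ} (g : Γ) {x y : Fin n}
    (h : ¬ (b x = c ∧ b y = a)) : offKap ρ b φ a c g x y = 0 := by
  simp only [offKap, Matrix.of_apply, if_neg h]

private lemma off_add (hB : BlockData res ρ D b P)
    (I : Ideal R) (φ : R → F) (hφ : ∀ u ∈ I, ∀ v ∈ I, φ (u + v) = φ u + φ v)
    (hφ' : ∀ (r : R), ∀ u ∈ I, φ (r * u) = res r * φ u) {a c : ℕ} (hac : a ≠ c)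
    (hmem : ∀ g ∈ P, ∀ x y, b x = c → b y = a → ρ g x y ∈ I)
    (hmid : ∀ g ∈ P, ∀ h ∈ P, ∀ x y z, b x = c → b y = a → b z ≠ a → b z ≠ c →
      ρ g x z * ρ h z y ∈ RingHom.ker res * I) {g h : Γ} (hg : g ∈ P) (hh : h ∈ P) :
    offKap ρ b φ a c (g * h) = offKap ρ b φ a c g + offKap ρ b φ a c h := by
  classical
  ext x y
  rw [Matrix.add_apply]
  by_cases hxy : b x = c ∧ b y = a
  · obtain ⟨hx, hy⟩ := hxy
    rw [off_kap_of _ hx hy, off_kap_of _ hx hy, off_kap_of _ hx hy, map_mul, Matrix.mul_apply]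
    have hone : ∀ k ∈ P, ∀ z w : Fin n, b z = b w →
        res (ρ k z w) = (1 : Matrix (Fin n) (Fin n) F) z w := by
      intro k hk z w hzw
      rw [← hB.diag k z w hzw, hB.triv k hk]
    have hyx : y ≠ x := by
      rintro rfl
      exact hac (hy.symm.trans hx)
    have key : ∀ z : Fin n, ρ g x z * ρ h z y ∈ I ∧ φ (ρ g x z * ρ h z y) =
        (if z = y then φ (ρ g x y) else 0) + (if z = x then φ (ρ h x y) else 0) := by
      intro z
      by_cases hzc : b z = c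
      · have hm := hmem h hh z y hzc hy
        refine ⟨I.mul_mem_left _ hm, ?_⟩
        rw [hφ' _ _ hm, hone g hg x z (hx.trans hzc.symm)]
        have hzy : z ≠ y := by
          rintro rfl
          exact hac (hy.symm.trans hzc)
        rw [if_neg hzy, zero_add]
        by_cases hzx : z = x
        · subst hzx
          rw [if_pos rfl, Matrix.one_apply_eq, one_mul]
        · rw [if_neg hzx, Matrix.one_apply_ne (Ne.symm hzx), zero_mul]
      · have hzx : z ≠ x := by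
          rintro rfl
          exact hzc hx
        rw [if_neg hzx, add_zero]
        by_cases hza : b z = a
        · have hm := hmem g hg x z hx hza
          refine ⟨I.mul_mem_right _ hm, ?_⟩
          rw [mul_comm (ρ g x z), hφ' _ _ hm, hone h hh z y (hza.trans hy.symm)]
          by_cases hzy : z = y
          · subst hzy
            rw [if_pos rfl, Matrix.one_apply_eq, one_mul]
          · rw [if_neg hzy, Matrix.one_apply_ne hzy, zero_mul]
        · have hzy : z ≠ y := by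
            rintro rfl
            exact hza hy
          rw [if_neg hzy]
          exact off_phi_ker I φ hφ hφ' (hmid g hg h hh x y z hx hy hza hzc)
    rw [off_phi_sum I φ hφ Finset.univ (fun z => ρ g x z * ρ h z y) fun z _ => (key z).1,
      Finset.sum_congr rfl fun z _ => (key z).2, Finset.sum_add_distrib,
      Finset.sum_ite_eq' Finset.univ y, Finset.sum_ite_eq' Finset.univ x]
    simp
  · rw [off_kap_not _ hxy, off_kap_not _ hxy, off_kap_not _ hxy, add_zero]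

private lemma off_conj_diag [P.Normal] (hB : BlockData res ρ D b P)
    (Δ : Subgroup Γ) (hdiag : ∀ δ ∈ Δ, ∀ x y, b x ≠ b y → ρ δ x y = 0)
    (I : Ideal R) (φ : R → F) (hφ : ∀ u ∈ I, ∀ v ∈ I, φ (u + v) = φ u + φ v)
    (hφ' : ∀ (r : R), ∀ u ∈ I, φ (r * u) = res r * φ u) {a c : ℕ}
    (hmem : ∀ g ∈ P, ∀ x y, b x = c → b y = a → ρ g x y ∈ I)
    {δ u : Γ} (hδ : δ ∈ Δ) (hu : u ∈ P) :
    offKap ρ b φ a c (δ * u * δ⁻¹) = D δ * offKap ρ b φ a c u * D δ⁻¹ := by
  classical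
  have hδ' : δ⁻¹ ∈ Δ := Δ.inv_mem hδ
  ext x y
  have hR : (D δ * offKap ρ b φ a c u * D δ⁻¹) x y =
      ∑ w, ∑ z, D δ x z * offKap ρ b φ a c u z w * D δ⁻¹ w y := by
    rw [Matrix.mul_apply]
    refine Finset.sum_congr rfl fun w _ => ?_
    rw [Matrix.mul_apply, Finset.sum_mul]
  rw [hR]
  by_cases hxy : b x = c ∧ b y = a
  · obtain ⟨hx, hy⟩ := hxy
    have hL : ρ (δ * u * δ⁻¹) x y = ∑ w, ∑ z, ρ δ x z * ρ u z w * ρ δ⁻¹ w y := by
      rw [map_mul, map_mul, Matrix.mul_apply]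
      refine Finset.sum_congr rfl fun w _ => ?_
      rw [Matrix.mul_apply, Finset.sum_mul]
    rw [off_kap_of _ hx hy, hL]
    have key : ∀ z w : Fin n, ρ δ x z * ρ u z w * ρ δ⁻¹ w y ∈ I ∧
        φ (ρ δ x z * ρ u z w * ρ δ⁻¹ w y) = D δ x z * offKap ρ b φ a c u z w * D δ⁻¹ w y := by
      intro z w
      by_cases hz : b x = b z
      · by_cases hw : b w = b y
        · have hzc : b z = c := hz.symm.trans hx
          have hwa : b w = a := hw.trans hy
          have hm := hmem u hu z w hzc hwa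
          refine ⟨I.mul_mem_right _ (I.mul_mem_left _ hm), ?_⟩
          have e : ρ δ x z * ρ u z w * ρ δ⁻¹ w y = (ρ δ x z * ρ δ⁻¹ w y) * ρ u z w := by ring
          rw [e, hφ' _ _ hm, off_kap_of _ hzc hwa, hB.diag δ x z hz, hB.diag δ⁻¹ w y hw, map_mul]
          ring
        · rw [hdiag _ hδ' w y hw, mul_zero, hB.off δ⁻¹ w y hw, mul_zero]
          exact ⟨I.zero_mem, off_phi_zero I φ hφ⟩
      · rw [hdiag _ hδ x z hz, zero_mul, zero_mul, hB.off δ x z hz, zero_mul, zero_mul]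
        exact ⟨I.zero_mem, off_phi_zero I φ hφ⟩
    rw [off_phi_sum I φ hφ Finset.univ (fun w => ∑ z, ρ δ x z * ρ u z w * ρ δ⁻¹ w y)
      fun w _ => I.sum_mem fun z _ => (key z w).1]
    refine Finset.sum_congr rfl fun w _ => ?_
    rw [off_phi_sum I φ hφ Finset.univ (fun z => ρ δ x z * ρ u z w * ρ δ⁻¹ w y)
      fun z _ => (key z w).1]
    exact Finset.sum_congr rfl fun z _ => (key z w).2
  · rw [off_kap_not _ hxy]
    symm
    refine Finset.sum_eq_zero fun w _ => Finset.sum_eq_zero fun z _ => ?_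
    by_cases hz : b x = b z
    · by_cases hw : b w = b y
      · have hzw : ¬ (b z = c ∧ b w = a) := fun h => hxy ⟨hz.trans h.1, hw.symm.trans h.2⟩
        rw [off_kap_not _ hzw, mul_zero, zero_mul]
      · rw [hB.off δ⁻¹ w y hw, mul_zero]
    · rw [hB.off δ x z hz, zero_mul, zero_mul]

theorem kEdge_off [P.Normal] (hB : BlockData res ρ D b P) (Δ : Subgroup Γ)
    (hΔ : ∀ γ : Γ, ∃ g ∈ P, ∃ δ ∈ Δ, γ = g * δ)
    (hdiag : ∀ δ ∈ Δ, ∀ x y, b x ≠ b y → ρ δ x y = 0)
    (I : Ideal R) (φ : R → F) (hφ : ∀ u ∈ I, ∀ v ∈ I, φ (u + v) = φ u + φ v)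
    (hφ' : ∀ (r : R), ∀ u ∈ I, φ (r * u) = res r * φ u) {a c : ℕ} (hac : a ≠ c)
    (hmem : ∀ g ∈ P, ∀ x y, b x = c → b y = a → ρ g x y ∈ I)
    (hmid : ∀ g ∈ P, ∀ h ∈ P, ∀ x y z, b x = c → b y = a → b z ≠ a → b z ≠ c →
      ρ g x z * ρ h z y ∈ RingHom.ker res * I)
    (hne : ∃ g ∈ P, ∃ x y, b x = c ∧ b y = a ∧ φ (ρ g x y) ≠ 0) : KEdge ρ D b P a c := by
  classical
  have hadd : ∀ g ∈ P, ∀ h ∈ P,
      offKap ρ b φ a c (g * h) = offKap ρ b φ a c g + offKap ρ b φ a c h :=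
    fun g hg h hh => off_add hB I φ hφ hφ' hac hmem hmid hg hh
  have hone : ∀ g ∈ P, ρ g = 1 → offKap ρ b φ a c g = 0 := by
    intro g hg h1
    ext x y
    rw [Matrix.zero_apply]
    by_cases hxy : b x = c ∧ b y = a
    · obtain ⟨hx, hy⟩ := hxy
      have hxy' : x ≠ y := by
        rintro rfl
        exact hac (hy.symm.trans hx)
      rw [off_kap_of _ hx hy, h1, Matrix.one_apply_ne hxy', off_phi_zero I φ hφ]
    · exact off_kap_not _ hxy
  have h1 : offKap ρ b φ a c (1 : Γ) = 0 := hone 1 P.one_mem (map_one ρ)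
  have hinner : ∀ g ∈ P, ∀ u ∈ P, offKap ρ b φ a c (g * u * g⁻¹) = offKap ρ b φ a c u := by
    intro g hg u hu
    have e1 := hadd (g * u) (P.mul_mem hg hu) g⁻¹ (P.inv_mem hg)
    have e2 := hadd g hg u hu
    have e3 := hadd g hg g⁻¹ (P.inv_mem hg)
    rw [mul_inv_cancel, h1] at e3
    rw [e1, e2, add_right_comm, ← e3, zero_add]
  refine ⟨offKap ρ b φ a c, ?_, hadd, ?_, hone, ?_⟩
  · intro g _ x y hxy
    by_contra hcon
    exact hxy (off_kap_not _ fun h => hcon ⟨h.2, h.1⟩)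
  · intro h u hu
    obtain ⟨g, hg, δ, hδ, rfl⟩ := hΔ h
    have e : g * δ * u * (g * δ)⁻¹ = g * (δ * u * δ⁻¹) * g⁻¹ := by group
    have hDg : D (g * δ) = D δ := by rw [map_mul, hB.triv g hg, one_mul]
    have hDg' : D (g * δ)⁻¹ = D δ⁻¹ := by
      rw [_root_.mul_inv_rev, map_mul, hB.triv g⁻¹ (P.inv_mem hg), mul_one]
    rw [e, hDg, hDg', hinner g hg _ ((inferInstance : P.Normal).conj_mem u hu δ)]
    exact off_conj_diag hB Δ hdiag I φ hφ hφ' hmem hδ hu
  · obtain ⟨g, hg, x, y, hx, hy, hne⟩ := hne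
    refine ⟨g, hg, fun s hs => hne ?_⟩
    have hxy' : x ≠ y := by
      rintro rfl
      exact hac (hy.symm.trans hx)
    have h := congrFun (congrFun hs x) y
    rw [off_kap_of _ hx hy, Matrix.smul_apply, blk, Matrix.diagonal_apply_ne _ hxy',
      smul_zero] at h
    exact h

end Pool.Agent.Helper27.TG
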